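import Pool.Agent.U128.Tf.Fin

/-!
# Growth under groups without small invariant subgroups
-/

set_option autoImplicit false
open scoped Pointwise
open Finset

namespace Pool.Agent.U128.Tf

universe u v

variable {Γ : Type u} [AddCommGroup Γ] {G : Type v} [Group G] [DistribMulAction G Γ]

theorem growth [DecidableEq Γ] (d : ℕ)
    (hirr : ∀ N : AddSubgroup Γ, (∀ g : G, ∀ x ∈ N, g • x ∈ N) →
      (∀ (n : ℤ) (x : Γ), n ≠ 0 → n • x ∈ N → x ∈ N) → Module.rank ℤ N < d → N = ⊥)
    (A : Finset Γ) (hA : A.Nonempty) :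
    ∃ g : G, 1 / 2 * (min (A.card : ℝ) (Real.exp d)) ^ ((1 : ℝ) / 60301) * A.card ≤
      (A + g • A).card := by
  classical
  by_contra hcon
  push Not at hcon
  have hc : (0 : ℝ) < A.card := by exact_mod_cast hA.card_pos
  set M := min (A.card : ℝ) (Real.exp d) with hM
  have hM0 : 0 < M := lt_min hc (Real.exp_pos _)
  set K := 1 / 2 * M ^ ((1 : ℝ) / 60301) with hKd
  have hK1 : 1 < K := by
    have h1 := hcon 1
    rw [one_smul] at h1
    have h2 : (A.card : ℝ) ≤ (A + A).card := by
      exact_mod_cast Finset.card_le_card_add_right hA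
    have h3 : 1 * (A.card : ℝ) < K * A.card := by linarith
    exact lt_of_mul_lt_mul_right h3 hc.le
  have h2K : 2 * K = M ^ ((1 : ℝ) / 60301) := by rw [hKd]; ring
  have hpow : (2 * K) ^ 60301 = M := by
    rw [h2K, ← Real.rpow_natCast, ← Real.rpow_mul hM0.le]
    norm_num
  obtain ⟨N, S, T, r, hNinv, hNpure, hrank, hSN, -, -, -, -, hT, hcov⟩ :=
    struct (G := G) A hA K (fun g => (hcon g).le)
  have hlt : (2 * K) ^ 60300 < M := by
    rw [← hpow]
    exact pow_lt_pow_right₀ (by linarith) (by norm_num)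
  have hTne : T.Nonempty := by
    obtain ⟨a, ha⟩ := hA
    obtain ⟨t, ht, _⟩ := Finset.mem_add.1 (hcov ha)
    exact ⟨t, ht⟩
  have hT1 : (1 : ℝ) ≤ T.card := by exact_mod_cast hTne.card_pos
  have hexp0 : 0 < Real.exp (r : ℝ) := Real.exp_pos _
  have hr : Real.exp (r : ℝ) < Real.exp d := by
    calc Real.exp (r : ℝ) = 1 * Real.exp r := (one_mul _).symm
      _ ≤ T.card * Real.exp r := by gcongr
      _ ≤ (2 * K) ^ 60300 := hT
      _ < M := hlt
      _ ≤ Real.exp d := min_le_right _ _
  have hrd : r < d := by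
    have := Real.exp_lt_exp.1 hr
    exact_mod_cast this
  have hN : N = ⊥ := hirr N hNinv hNpure (lt_of_le_of_lt hrank (by exact_mod_cast hrd))
  have hS1 : S.card ≤ 1 := by
    rw [Finset.card_le_one]
    intro a ha b hb
    have h1 := hSN a ha
    have h2 := hSN b hb
    rw [hN, AddSubgroup.mem_bot] at h1 h2
    rw [h1, h2]
  have h1 : (A.card : ℝ) ≤ T.card := by
    have h2 : A.card ≤ T.card * S.card := (Finset.card_le_card hcov).trans Finset.card_add_le
    have h3 : T.card * S.card ≤ T.card * 1 := Nat.mul_le_mul_left _ hS1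
    have h4 : A.card ≤ T.card := by omega
    exact_mod_cast h4
  have h5 : (1 : ℝ) ≤ Real.exp (r : ℝ) := by
    rw [← Real.exp_zero]
    exact Real.exp_le_exp.2 (by positivity)
  have h6 : (T.card : ℝ) ≤ T.card * Real.exp r := by nlinarith
  have h7 : M ≤ A.card := min_le_left _ _
  linarith

/-- Change of one sign. -/
def flipAut (d : ℕ) (i : Fin d) : (Fin d → ℤ) ≃ₗ[ℤ] (Fin d → ℤ) where
  toFun x := fun j => if j = i then -x j else x j
  invFun x := fun j => if j = i then -x j else x j
  left_inv x := by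
    funext j
    by_cases h : j = i <;> simp [h]
  right_inv x := by
    funext j
    by_cases h : j = i <;> simp [h]
  map_add' x y := by
    funext j
    by_cases h : j = i
    · simp [h]; ring
    · simp [h]
  map_smul' n x := by
    funext j
    by_cases h : j = i
    · simp [h]
    · simp [h]

/-- Permutation of the coordinates. -/
def permAut (d : ℕ) (σ : Equiv.Perm (Fin d)) : (Fin d → ℤ) ≃ₗ[ℤ] (Fin d → ℤ) where
  toFun x := x ∘ σ
  invFun x := x ∘ σ.symm
  left_inv x := by
    funext j
    simp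
  right_inv x := by
    funext j
    simp
  map_add' x y := rfl
  map_smul' n x := rfl

theorem mem_stab {Γ : Type*} [AddCommGroup Γ] [DecidableEq Γ] (A : Finset Γ) (φ : Γ ≃ₗ[ℤ] Γ)
    (h : ∀ x ∈ A, φ x ∈ A) : φ ∈ MulAction.stabilizer (Γ ≃ₗ[ℤ] Γ) A := by
  rw [MulAction.mem_stabilizer_iff]
  apply Finset.eq_of_subset_of_card_le
  · intro y hy
    obtain ⟨x, hx, rfl⟩ := Finset.mem_smul_finset.1 hy
    exact h x hx
  · rw [Finset.card_smul_finset]

/-- Sets with the symmetries of the cube. -/
theorem cube (d : ℕ) (A : Finset (Fin d → ℤ)) (hA : A.Nonempty)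
    (hperm : ∀ (σ : Equiv.Perm (Fin d)), ∀ x ∈ A, x ∘ σ ∈ A)
    (hflip : ∀ (i : Fin d), ∀ x ∈ A, Function.update x i (-x i) ∈ A) :
    1 / 2 * (min (A.card : ℝ) (Real.exp d)) ^ ((1 : ℝ) / 60301) * A.card ≤ (A + A).card := by
  classical
  have hf : ∀ i, flipAut d i ∈ MulAction.stabilizer ((Fin d → ℤ) ≃ₗ[ℤ] (Fin d → ℤ)) A := by
    intro i
    refine mem_stab A _ (fun x hx => ?_)
    have h1 : (flipAut d i) x = Function.update x i (-x i) := by
      funext j
      by_cases h : j = i
      · subst h; simp [flipAut]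
      · simp [flipAut, h]
    rw [h1]
    exact hflip i x hx
  have hp : ∀ σ, permAut d σ ∈ MulAction.stabilizer ((Fin d → ℤ) ≃ₗ[ℤ] (Fin d → ℤ)) A := by
    intro σ
    exact mem_stab A _ (fun x hx => hperm σ x hx)
  obtain ⟨g, hg⟩ := growth (G := MulAction.stabilizer ((Fin d → ℤ) ≃ₗ[ℤ] (Fin d → ℤ)) A) d (by
    intro N hN hpure hrank
    by_contra hne
    obtain ⟨x, hx, hx0⟩ : ∃ x ∈ N, x ≠ 0 := by
      by_contra hno
      push Not at hno
      apply hne
      rw [eq_bot_iff]
      intro x hx
      rw [AddSubgroup.mem_bot]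
      exact hno x hx
    obtain ⟨i, hi⟩ : ∃ i, x i ≠ 0 := by
      by_contra hno
      push Not at hno
      exact hx0 (funext hno)
    have h1 : (flipAut d i) x ∈ N := hN ⟨_, hf i⟩ x hx
    have h2 : x - (flipAut d i) x = (2 * x i) • (Pi.single i 1 : Fin d → ℤ) := by
      funext j
      by_cases h : j = i
      · subst h; simp [flipAut]; ring
      · simp [flipAut, h]
    have h3 : (Pi.single i 1 : Fin d → ℤ) ∈ N := by
      refine hpure (2 * x i) _ (by omega) ?_
      rw [← h2]
      exact N.sub_mem hx h1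
    have h4 : ∀ j, (Pi.single j 1 : Fin d → ℤ) ∈ N := by
      intro j
      have h5 : (permAut d (Equiv.swap i j)) (Pi.single i 1) ∈ N := hN ⟨_, hp _⟩ _ h3
      have h6 : (permAut d (Equiv.swap i j)) (Pi.single i 1) = Pi.single j (1 : ℤ) := by
        funext k
        change (Pi.single i (1 : ℤ) : Fin d → ℤ) (Equiv.swap i j k) = _
        rw [Pi.single_apply, Pi.single_apply]
        by_cases hk : k = j
        · subst hk; simp
        · rw [if_neg hk, if_neg]
          intro hki
          apply hk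
          have := (Equiv.swap_apply_eq_iff).1 hki
          simpa using this
      rwa [h6] at h5
    have h5 : ∀ y : Fin d → ℤ, y ∈ N := by
      intro y
      have h6 : y = ∑ j, y j • (Pi.single j 1 : Fin d → ℤ) := by
        funext k
        rw [Finset.sum_apply]
        simp [Pi.single_apply]
      rw [h6]
      exact N.sum_mem (fun j _ => N.zsmul_mem (h4 j) _)
    let f : (Fin d → ℤ) →+ N :=
      { toFun := fun y => ⟨y, h5 y⟩
        map_zero' := rfl
        map_add' := fun _ _ => rfl }
    have h7 : Module.rank ℤ (Fin d → ℤ) ≤ Module.rank ℤ N :=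
      LinearMap.rank_le_of_injective f.toIntLinearMap (fun a b h => congrArg Subtype.val h)
    have h8 : Module.rank ℤ (Fin d → ℤ) = d := by simp
    rw [h8] at h7
    exact absurd (lt_of_le_of_lt h7 hrank) (lt_irrefl _)) A hA
  have h1 : g • A = A := g.2
  rw [h1] at hg
  exact hg

end Pool.Agent.U128.Tf
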