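import Mathlib

/-!
# The entropy of a finite set modulo a subspace is submodular
-/

set_option autoImplicit false

namespace Pool.Agent.U128.Tf

open Finset

variable {R M : Type*} [Ring R] [AddCommGroup M] [Module R M]

open Classical in
/-- The number of the elements of `A` in the coset of `a` modulo `U`. -/
noncomputable def nb (A : Finset M) (U : Submodule R M) (a : M) : ℕ :=
  (A.filter (fun b => b - a ∈ U)).card

/-- The entropy of the uniform distribution on `A` modulo `U`. -/
noncomputable def ent (A : Finset M) (U : Submodule R M) : ℝ :=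
  Real.log A.card - (∑ a ∈ A, Real.log (nb A U a)) / A.card

theorem nb_pos {A : Finset M} {U : Submodule R M} {a : M} (ha : a ∈ A) : 0 < nb A U a := by
  classical
  refine Finset.card_pos.2 ⟨a, ?_⟩
  simp [ha]

theorem nb_le (A : Finset M) (U : Submodule R M) (a : M) : nb A U a ≤ A.card := by
  classical
  exact Finset.card_filter_le _ _

theorem nb_congr {A : Finset M} {U : Submodule R M} {a b : M} (h : a - b ∈ U) :
    nb A U a = nb A U b := by
  classical
  refine congrArg Finset.card (Finset.filter_congr (fun c _ => ?_))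
  constructor
  · intro hc
    have := U.add_mem hc h
    rwa [sub_add_sub_cancel] at this
  · intro hc
    have := U.sub_mem hc h
    have e : c - b - (a - b) = c - a := by abel
    rwa [e] at this

theorem nb_mono {A : Finset M} {U U' : Submodule R M} (h : U ≤ U') (a : M) :
    nb A U a ≤ nb A U' a := by
  classical
  exact Finset.card_le_card (fun c hc => by
    rw [Finset.mem_filter] at hc ⊢
    exact ⟨hc.1, h hc.2⟩)

theorem ent_nonneg {A : Finset M} (hA : A.Nonempty) (U : Submodule R M) : 0 ≤ ent A U := by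
  have hc : (0 : ℝ) < A.card := by exact_mod_cast hA.card_pos
  rw [ent, sub_nonneg, div_le_iff₀ hc]
  calc ∑ a ∈ A, Real.log (nb A U a) ≤ ∑ a ∈ A, Real.log A.card :=
        Finset.sum_le_sum (fun a ha => Real.log_le_log (by exact_mod_cast nb_pos ha)
          (by exact_mod_cast nb_le A U a))
    _ = _ := by rw [Finset.sum_const, nsmul_eq_mul, mul_comm]

private theorem key (A : Finset M) (U U' : Submodule R M) :
    ∑ a ∈ A, (nb A U a : ℝ) * nb A U' a / (nb A (U ⊓ U') a * nb A (U ⊔ U') a) ≤ A.card := by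
  classical
  have h1 : ∀ a ∈ A, (nb A U a : ℝ) * nb A U' a / (nb A (U ⊓ U') a * nb A (U ⊔ U') a) =
      ∑ b ∈ A, ∑ c ∈ A, if b - a ∈ U ∧ c - a ∈ U' then
        ((nb A (U ⊓ U') a : ℝ))⁻¹ * (nb A (U ⊔ U') a : ℝ)⁻¹ else 0 := by
    intro a _
    have h2 : ∀ b ∈ A, (∑ c ∈ A, if b - a ∈ U ∧ c - a ∈ U' then
        ((nb A (U ⊓ U') a : ℝ))⁻¹ * (nb A (U ⊔ U') a : ℝ)⁻¹ else 0) =
        if b - a ∈ U then (nb A U' a : ℝ) *
          (((nb A (U ⊓ U') a : ℝ))⁻¹ * (nb A (U ⊔ U') a : ℝ)⁻¹) else 0 := by
      intro b _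
      by_cases hb : b - a ∈ U
      · simp only [hb, true_and, if_true]
        rw [← Finset.sum_filter, Finset.sum_const, nsmul_eq_mul]
        congr 2
      · simp [hb]
    rw [Finset.sum_congr rfl h2, ← Finset.sum_filter, Finset.sum_const, nsmul_eq_mul]
    have h3 : ((A.filter (fun b => b - a ∈ U)).card : ℝ) = nb A U a := by
      rw [nb]
    rw [h3, div_eq_mul_inv, mul_inv]
    ring
  rw [Finset.sum_congr rfl h1, Finset.sum_comm]
  have h4 : ∀ b ∈ A, (∑ a ∈ A, ∑ c ∈ A, if b - a ∈ U ∧ c - a ∈ U' then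
        ((nb A (U ⊓ U') a : ℝ))⁻¹ * (nb A (U ⊔ U') a : ℝ)⁻¹ else 0) ≤ 1 := by
    intro b hb
    rw [Finset.sum_comm]
    have h5 : ∀ c ∈ A, (∑ a ∈ A, if b - a ∈ U ∧ c - a ∈ U' then
        ((nb A (U ⊓ U') a : ℝ))⁻¹ * (nb A (U ⊔ U') a : ℝ)⁻¹ else 0) ≤
        if c - b ∈ U ⊔ U' then (nb A (U ⊔ U') b : ℝ)⁻¹ else 0 := by
      intro c _
      by_cases hex : ∃ a ∈ A, b - a ∈ U ∧ c - a ∈ U'
      · obtain ⟨a0, ha0, h6, h7⟩ := hex
        have hcb : c - b ∈ U ⊔ U' := by
          have := (U ⊔ U').sub_mem (Submodule.mem_sup_right h7 : c - a0 ∈ U ⊔ U')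
            (Submodule.mem_sup_left h6)
          have e : c - a0 - (b - a0) = c - b := by abel
          rwa [e] at this
        rw [if_pos hcb, ← Finset.sum_filter]
        have h8 : ∀ a ∈ A.filter (fun a => b - a ∈ U ∧ c - a ∈ U'),
            ((nb A (U ⊓ U') a : ℝ))⁻¹ * (nb A (U ⊔ U') a : ℝ)⁻¹ =
            ((nb A (U ⊓ U') a0 : ℝ))⁻¹ * (nb A (U ⊔ U') b : ℝ)⁻¹ := by
          intro a ha
          rw [Finset.mem_filter] at ha
          have e1 : nb A (U ⊓ U') a = nb A (U ⊓ U') a0 := by
            apply nb_congr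
            refine ⟨?_, ?_⟩
            · have := U.sub_mem h6 ha.2.1
              have e : b - a0 - (b - a) = a - a0 := by abel
              rwa [e] at this
            · have := U'.sub_mem h7 ha.2.2
              have e : c - a0 - (c - a) = a - a0 := by abel
              rwa [e] at this
          have e2 : nb A (U ⊔ U') a = nb A (U ⊔ U') b := by
            symm
            exact nb_congr (Submodule.mem_sup_left ha.2.1)
          rw [e1, e2]
        rw [Finset.sum_congr rfl h8, Finset.sum_const, nsmul_eq_mul, ← mul_assoc]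
        have h9 : ((A.filter (fun a => b - a ∈ U ∧ c - a ∈ U')).card : ℝ) ≤
            nb A (U ⊓ U') a0 := by
          rw [nb]
          exact_mod_cast Finset.card_le_card (fun a ha => by
            rw [Finset.mem_filter] at ha ⊢
            refine ⟨ha.1, ?_, ?_⟩
            · have := U.sub_mem h6 ha.2.1
              have e : b - a0 - (b - a) = a - a0 := by abel
              rwa [e] at this
            · have := U'.sub_mem h7 ha.2.2
              have e : c - a0 - (c - a) = a - a0 := by abel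
              rwa [e] at this)
        have h10 : (0 : ℝ) < nb A (U ⊓ U') a0 := by exact_mod_cast nb_pos ha0
        have h11 : ((A.filter (fun a => b - a ∈ U ∧ c - a ∈ U')).card : ℝ) *
            (nb A (U ⊓ U') a0 : ℝ)⁻¹ ≤ 1 := by
          rw [← div_eq_mul_inv, div_le_one h10]
          exact h9
        calc _ ≤ 1 * (nb A (U ⊔ U') b : ℝ)⁻¹ := by gcongr
          _ = _ := one_mul _
      · have h6 : (∑ a ∈ A, if b - a ∈ U ∧ c - a ∈ U' then
            ((nb A (U ⊓ U') a : ℝ))⁻¹ * (nb A (U ⊔ U') a : ℝ)⁻¹ else 0) = 0 := by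
          apply Finset.sum_eq_zero
          intro a ha
          rw [if_neg]
          exact fun h => hex ⟨a, ha, h⟩
        rw [h6]
        split_ifs
        · positivity
        · exact le_rfl
    calc _ ≤ ∑ c ∈ A, if c - b ∈ U ⊔ U' then (nb A (U ⊔ U') b : ℝ)⁻¹ else 0 :=
          Finset.sum_le_sum h5
      _ = (nb A (U ⊔ U') b : ℝ) * (nb A (U ⊔ U') b : ℝ)⁻¹ := by
          rw [← Finset.sum_filter, Finset.sum_const, nsmul_eq_mul]
          congr 2
      _ = 1 := by
          have : (nb A (U ⊔ U') b : ℝ) ≠ 0 := by exact_mod_cast (nb_pos hb).ne'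
          field_simp
  calc _ ≤ ∑ b ∈ A, (1 : ℝ) := Finset.sum_le_sum h4
    _ = A.card := by simp

/-- Submodularity. -/
theorem ent_submod {A : Finset M} (hA : A.Nonempty) (U U' : Submodule R M) :
    ent A (U ⊓ U') + ent A (U ⊔ U') ≤ ent A U + ent A U' := by
  have hc : (0 : ℝ) < A.card := by exact_mod_cast hA.card_pos
  have h1 : ∑ a ∈ A, (Real.log (nb A U a) + Real.log (nb A U' a) -
      Real.log (nb A (U ⊓ U') a) - Real.log (nb A (U ⊔ U') a)) ≤ 0 := by
    have h2 : ∀ a ∈ A, Real.log (nb A U a) + Real.log (nb A U' a) -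
        Real.log (nb A (U ⊓ U') a) - Real.log (nb A (U ⊔ U') a) ≤
        (nb A U a : ℝ) * nb A U' a / (nb A (U ⊓ U') a * nb A (U ⊔ U') a) - 1 := by
      intro a ha
      have p1 : (0 : ℝ) < nb A U a := by exact_mod_cast nb_pos ha
      have p2 : (0 : ℝ) < nb A U' a := by exact_mod_cast nb_pos ha
      have p3 : (0 : ℝ) < nb A (U ⊓ U') a := by exact_mod_cast nb_pos ha
      have p4 : (0 : ℝ) < nb A (U ⊔ U') a := by exact_mod_cast nb_pos ha
      have h3 := Real.log_le_sub_one_of_pos (x := (nb A U a : ℝ) * nb A U' a /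
        (nb A (U ⊓ U') a * nb A (U ⊔ U') a)) (by positivity)
      rw [Real.log_div (by positivity) (by positivity), Real.log_mul p1.ne' p2.ne',
        Real.log_mul p3.ne' p4.ne'] at h3
      linarith
    calc _ ≤ ∑ a ∈ A, ((nb A U a : ℝ) * nb A U' a / (nb A (U ⊓ U') a * nb A (U ⊔ U') a) - 1) :=
          Finset.sum_le_sum h2
      _ = ∑ a ∈ A, ((nb A U a : ℝ) * nb A U' a / (nb A (U ⊓ U') a * nb A (U ⊔ U') a)) -
          A.card := by rw [Finset.sum_sub_distrib]; simp
      _ ≤ 0 := by linarith [key A U U']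
  rw [Finset.sum_sub_distrib, Finset.sum_sub_distrib, Finset.sum_add_distrib] at h1
  rw [ent, ent, ent, ent]
  have h4 : (∑ a ∈ A, Real.log (nb A U a)) / A.card + (∑ a ∈ A, Real.log (nb A U' a)) / A.card ≤
      (∑ a ∈ A, Real.log (nb A (U ⊓ U') a)) / A.card +
        (∑ a ∈ A, Real.log (nb A (U ⊔ U') a)) / A.card := by
    rw [← add_div, ← add_div]
    exact div_le_div_of_nonneg_right (by linarith) hc.le
  linarith

theorem exists_large {A : Finset M} (hA : A.Nonempty) {U : Submodule R M} {B : ℝ}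
    (h : ent A U ≤ B) : ∃ a ∈ A, Real.exp (-B) * A.card ≤ nb A U a := by
  have hc : (0 : ℝ) < A.card := by exact_mod_cast hA.card_pos
  by_contra hne
  push Not at hne
  have h1 : ∑ a ∈ A, Real.log (nb A U a) < ∑ a ∈ A, (Real.log A.card - B) := by
    refine Finset.sum_lt_sum_of_nonempty hA (fun a ha => ?_)
    have h2 : Real.log (nb A U a) < Real.log (Real.exp (-B) * A.card) :=
      Real.log_lt_log (by exact_mod_cast nb_pos ha) (hne a ha)
    rw [Real.log_mul (Real.exp_pos _).ne' hc.ne', Real.log_exp] at h2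
    linarith
  rw [Finset.sum_const, nsmul_eq_mul] at h1
  rw [ent] at h
  have h3 : (∑ a ∈ A, Real.log (nb A U a)) / A.card < Real.log A.card - B := by
    rw [div_lt_iff₀ hc]
    linarith
  linarith

theorem ent_le_of_cover {A T : Finset M} (hA : A.Nonempty) {U : Submodule R M}
    (h : ∀ a ∈ A, ∃ t ∈ T, a - t ∈ U) : ent A U ≤ Real.log T.card := by
  classical
  have hc : (0 : ℝ) < A.card := by exact_mod_cast hA.card_pos
  have hT : T.Nonempty := by
    obtain ⟨a, ha⟩ := hA
    obtain ⟨t, ht, _⟩ := h a ha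
    exact ⟨t, ht⟩
  have hTc : (0 : ℝ) < T.card := by exact_mod_cast hT.card_pos
  have h1 : ∑ a ∈ A, (nb A U a : ℝ)⁻¹ ≤ T.card := by
    calc ∑ a ∈ A, (nb A U a : ℝ)⁻¹ ≤ ∑ a ∈ A, ∑ t ∈ T, if a - t ∈ U then
          (nb A U t : ℝ)⁻¹ else 0 := by
          refine Finset.sum_le_sum (fun a ha => ?_)
          obtain ⟨t, ht, hat⟩ := h a ha
          have h2 : (if a - t ∈ U then (nb A U t : ℝ)⁻¹ else 0) = (nb A U a : ℝ)⁻¹ := by
            rw [if_pos hat, nb_congr hat]
          rw [← h2]
          exact Finset.single_le_sum (f := fun t => if a - t ∈ U then (nb A U t : ℝ)⁻¹ else 0)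
            (fun t _ => by
              split_ifs
              · positivity
              · exact le_rfl) ht
      _ = ∑ t ∈ T, ∑ a ∈ A, if a - t ∈ U then (nb A U t : ℝ)⁻¹ else 0 := Finset.sum_comm
      _ ≤ ∑ t ∈ T, (1 : ℝ) := by
          refine Finset.sum_le_sum (fun t _ => ?_)
          rw [← Finset.sum_filter, Finset.sum_const, nsmul_eq_mul]
          have h3 : ((A.filter (fun a => a - t ∈ U)).card : ℝ) = nb A U t := by
            rw [nb]
          rw [h3]
          by_cases h0 : (nb A U t : ℝ) = 0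
          · rw [h0]; simp
          · rw [mul_inv_cancel₀ h0]
      _ = T.card := by simp
  have h2 : ∑ a ∈ A, (Real.log A.card - Real.log (nb A U a)) ≤ A.card * Real.log T.card := by
    have h3 : ∀ a ∈ A, Real.log A.card - Real.log (nb A U a) ≤
        A.card / T.card * (nb A U a : ℝ)⁻¹ - 1 + Real.log T.card := by
      intro a ha
      have p1 : (0 : ℝ) < nb A U a := by exact_mod_cast nb_pos ha
      have h4 := Real.log_le_sub_one_of_pos (x := A.card / T.card * (nb A U a : ℝ)⁻¹)
        (by positivity)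
      rw [Real.log_mul (by positivity) (by positivity), Real.log_div hc.ne' hTc.ne',
        Real.log_inv] at h4
      linarith
    calc _ ≤ ∑ a ∈ A, (A.card / T.card * (nb A U a : ℝ)⁻¹ - 1 + Real.log T.card) :=
          Finset.sum_le_sum h3
      _ = A.card / T.card * ∑ a ∈ A, (nb A U a : ℝ)⁻¹ - A.card + A.card * Real.log T.card := by
          rw [Finset.sum_add_distrib, Finset.sum_sub_distrib, ← Finset.mul_sum]
          simp
      _ ≤ A.card / T.card * T.card - A.card + A.card * Real.log T.card := by gcongr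
      _ = _ := by field_simp; ring
  rw [Finset.sum_sub_distrib, Finset.sum_const, nsmul_eq_mul] at h2
  rw [ent]
  have h5 : Real.log A.card - (∑ a ∈ A, Real.log (nb A U a)) / A.card =
      (A.card * Real.log A.card - ∑ a ∈ A, Real.log (nb A U a)) / A.card := by
    field_simp
  rw [h5, div_le_iff₀ hc]
  linarith

theorem nb_image [DecidableEq M] {A : Finset M} {U : Submodule R M} (g : M ≃ₗ[R] M) (a : M) :
    nb (A.image g) (U.map (g : M →ₗ[R] M)) (g a) = nb A U a := by
  classical
  rw [nb, nb]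
  have h1 : (A.image g).filter (fun b => b - g a ∈ U.map (g : M →ₗ[R] M)) =
      (A.filter (fun b => b - a ∈ U)).image g := by
    ext b
    simp only [Finset.mem_filter, Finset.mem_image]
    constructor
    · rintro ⟨⟨c, hc, rfl⟩, h⟩
      refine ⟨c, ⟨hc, ?_⟩, rfl⟩
      obtain ⟨d, hd, hd'⟩ := h
      have h2 : d = c - a := by
        apply g.injective
        rw [map_sub]
        exact hd'
      rwa [← h2]
    · rintro ⟨c, ⟨hc, h⟩, rfl⟩
      exact ⟨⟨c, hc, rfl⟩, ⟨c - a, h, by simp⟩⟩
  rw [h1, Finset.card_image_of_injective _ g.injective]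

theorem ent_image [DecidableEq M] {A : Finset M} {U : Submodule R M} (g : M ≃ₗ[R] M) :
    ent (A.image g) (U.map (g : M →ₗ[R] M)) = ent A U := by
  rw [ent, ent, Finset.card_image_of_injective _ g.injective,
    Finset.sum_image (fun x _ y _ h => g.injective h)]
  simp only [nb_image]

end Pool.Agent.U128.Tf
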