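import Mathlib

/-!
# Families of sets with small sumsets and their popular differences
-/

set_option autoImplicit false
open scoped Pointwise
open Finset

namespace Pool.Agent.U128.Tf

universe u

variable {Γ : Type u} [AddCommGroup Γ] [DecidableEq Γ]

theorem nsmul_four {M : Type*} [AddCommMonoid M] (B : M) : (4 : ℕ) • B = B + B + (B + B) := by
  abel

theorem nsmul_sixteen {M : Type*} [AddCommMonoid M] (B : M) :
    (16 : ℕ) • B = B + B + (B + B) + (B + B + (B + B)) + (B + B + (B + B) + (B + B + (B + B))) := by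
  abel

theorem nsmul_eight {M : Type*} [AddCommMonoid M] (B : M) :
    (8 : ℕ) • B = B + B + (B + B) + (B + B + (B + B)) := by
  abel

theorem castq (x a c n : ℕ) (h : (x : ℚ≥0) ≤ ((a : ℚ≥0) / c) ^ n * c) :
    (x : ℝ) ≤ ((a : ℝ) / c) ^ n * c := by
  have h1 := (NNRat.cast_le (K := ℝ)).2 h
  push_cast at h1
  exact h1

theorem plun {A B : Finset Γ} (hA : A.Nonempty) {α : ℝ}
    (h : ((A + B).card : ℝ) ≤ α * A.card) :
    (((B + B - (B + B)).card : ℝ) ≤ α ^ 4 * A.card) ∧
    (((B + B + (B + B) + (B + B + (B + B))).card : ℝ) ≤ α ^ 8 * A.card) ∧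
    (((B + B + (B + B) + (B + B + (B + B)) + (B + B + (B + B) + (B + B + (B + B)))).card : ℝ) ≤
      α ^ 16 * A.card) := by
  have hc : (0 : ℝ) < A.card := by exact_mod_cast hA.card_pos
  have hr : ((A + B).card : ℝ) / A.card ≤ α := by
    rw [div_le_iff₀ hc]
    exact h
  have hr0 : 0 ≤ ((A + B).card : ℝ) / A.card := by positivity
  refine ⟨?_, ?_, ?_⟩
  · have h1 := Finset.pluennecke_ruzsa_inequality_nsmul_sub_nsmul_add hA B 2 2
    rw [two_nsmul] at h1
    have h2 : (((B + B - (B + B)).card : ℝ)) ≤ (((A + B).card : ℝ) / A.card) ^ (2 + 2) * A.card :=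
      castq _ _ _ _ h1
    calc _ ≤ _ := h2
      _ ≤ _ := by gcongr
  · have h1 := Finset.pluennecke_ruzsa_inequality_nsmul_add hA B 8
    rw [nsmul_eight] at h1
    have h2 : (((B + B + (B + B) + (B + B + (B + B))).card : ℝ)) ≤
        (((A + B).card : ℝ) / A.card) ^ 8 * A.card := castq _ _ _ _ h1
    calc _ ≤ _ := h2
      _ ≤ _ := by gcongr
  · have h1 := Finset.pluennecke_ruzsa_inequality_nsmul_add hA B 16
    rw [nsmul_sixteen] at h1
    have h2 : (((B + B + (B + B) + (B + B + (B + B)) + (B + B + (B + B) +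
        (B + B + (B + B)))).card : ℝ)) ≤ (((A + B).card : ℝ) / A.card) ^ 16 * A.card :=
      castq _ _ _ _ h1
    calc _ ≤ _ := h2
      _ ≤ _ := by gcongr

theorem card_sub_self {E : Finset Γ} {m : ℕ} (hm : 0 < m) (hE : E.card = m) {K : ℝ}
    (hK : ((E + E).card : ℝ) ≤ K * m) : ((E - E).card : ℝ) ≤ K ^ 2 * m := by
  have h1 := Finset.ruzsa_triangle_inequality_sub_add_add E E E
  rw [hE] at h1
  have h2 : ((E - E).card : ℝ) * m ≤ (E + E).card * (E + E).card := by exact_mod_cast h1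
  have hm' : (0 : ℝ) < m := by exact_mod_cast hm
  have h0 : (0 : ℝ) ≤ (E + E).card := by positivity
  have h3 : ((E + E).card : ℝ) * (E + E).card ≤ (K * m) * (K * m) :=
    mul_le_mul hK hK h0 (h0.trans hK)
  have h4 : ((E - E).card : ℝ) * m ≤ (K ^ 2 * m) * m := by nlinarith
  exact le_of_mul_le_mul_right h4 hm'

theorem inter_large {E E' : Finset Γ} {m : ℕ} (hm : 0 < m) (hE : E.card = m) (hE' : E'.card = m)
    {K : ℝ} (hK0 : 0 < K) (hK : ((E + E').card : ℝ) ≤ K * m) :
    (m : ℝ) / K ≤ ((E - E) ∩ (E' - E')).card := by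
  have hm' : (0 : ℝ) < m := by exact_mod_cast hm
  have hne : E.Nonempty := Finset.card_pos.1 (by omega)
  have hne' : E'.Nonempty := Finset.card_pos.1 (by omega)
  obtain ⟨y, hy, hfib⟩ := Finset.exists_le_card_fiber_of_nsmul_le_card_of_maps_to
    (s := E ×ˢ E') (t := E + E') (f := fun p => p.1 + p.2) (b := (m : ℝ) / K)
    (fun p hp => by
      rw [Finset.mem_product] at hp
      exact Finset.add_mem_add hp.1 hp.2)
    (hne.add hne') (by
      rw [nsmul_eq_mul, Finset.card_product, hE, hE', Nat.cast_mul]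
      calc ((E + E').card : ℝ) * (m / K) ≤ (K * m) * (m / K) := by gcongr
        _ = m * m := by field_simp)
  refine hfib.trans ?_
  obtain ⟨a, ha, b, hb, hab⟩ := Finset.mem_add.1 hy
  have h1 : ((E ×ˢ E').filter (fun p => p.1 + p.2 = y)).card ≤
      ((E - E) ∩ (E' - E')).card := by
    apply Finset.card_le_card_of_injOn (fun p => p.1 - a)
    · intro p hp
      have hp' := Finset.mem_filter.1 (Finset.mem_coe.1 hp)
      rw [Finset.mem_product] at hp'
      rw [Finset.mem_coe, Finset.mem_inter]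
      refine ⟨Finset.sub_mem_sub hp'.1.1 ha, ?_⟩
      have h2 : p.1 - a = b - p.2 := by
        have h3 : p.1 + p.2 = a + b := by rw [hp'.2, hab]
        rw [sub_eq_sub_iff_add_eq_add, h3, add_comm]
      dsimp only
      rw [h2]
      exact Finset.sub_mem_sub hb hp'.1.2
    · intro p hp q hq h
      have hp' := (Finset.mem_filter.1 (Finset.mem_coe.1 hp)).2
      have hq' := (Finset.mem_filter.1 (Finset.mem_coe.1 hq)).2
      dsimp only at h
      have h2 : p.1 = q.1 := sub_left_injective h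
      refine Prod.ext h2 ?_
      rw [h2, ← hq'] at hp'
      exact add_left_cancel hp'
  exact_mod_cast h1

theorem triple {E E' : Finset Γ} {m : ℕ} (hm : 0 < m) (hE : E.card = m) (hE' : E'.card = m)
    {K : ℝ} (hK1 : 1 ≤ K) (hK : ((E + E').card : ℝ) ≤ K * m) (hKE : ((E + E).card : ℝ) ≤ K * m) :
    ((E - E + E').card : ℝ) ≤ K ^ 5 * m := by
  have hm' : (0 : ℝ) < m := by exact_mod_cast hm
  have hne : E.Nonempty := Finset.card_pos.1 (by omega)
  obtain ⟨F, _, hF, hcov⟩ := Finset.ruzsa_covering_add (A := E') (B := E) hne (K := K) (by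
    rw [add_comm E' E, hE]
    exact hK)
  have h1 : E - E + E' ⊆ F + (E + E - (E + E)) := by
    intro x hx
    obtain ⟨d, hd, e, he, rfl⟩ := Finset.mem_add.1 hx
    obtain ⟨a, ha, b, hb, rfl⟩ := Finset.mem_sub.1 hd
    obtain ⟨f, hf, d', hd', rfl⟩ := Finset.mem_add.1 (hcov he)
    obtain ⟨a', ha', b', hb', rfl⟩ := Finset.mem_sub.1 hd'
    refine Finset.mem_add.2 ⟨f, hf, (a + a') - (b + b'), ?_, by abel⟩
    exact Finset.sub_mem_sub (Finset.add_mem_add ha ha') (Finset.add_mem_add hb hb')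
  have h2 := (plun hne (B := E) (α := K) (by rw [hE]; exact hKE)).1
  rw [hE] at h2
  calc ((E - E + E').card : ℝ) ≤ (F + (E + E - (E + E))).card := by
        exact_mod_cast Finset.card_le_card h1
    _ ≤ F.card * (E + E - (E + E)).card := by exact_mod_cast Finset.card_add_le
    _ ≤ K * (K ^ 4 * m) := by gcongr
    _ = _ := by ring

/-- The popular differences. -/
noncomputable def pop (O : Finset (Finset Γ)) (K : ℝ) : Finset Γ :=
  (O.biUnion (fun E => E - E)).filter
    (fun x => (O.card : ℝ) / (2 * K ^ 3) ≤ (O.filter (fun E => x ∈ E - E)).card)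

theorem mem_pop {O : Finset (Finset Γ)} (hO : O.Nonempty) {K : ℝ} (hK : 1 ≤ K) {x : Γ} :
    x ∈ pop O K ↔ (O.card : ℝ) / (2 * K ^ 3) ≤ (O.filter (fun E => x ∈ E - E)).card := by
  rw [pop, Finset.mem_filter]
  refine ⟨fun h => h.2, fun h => ⟨?_, h⟩⟩
  have hc : (0 : ℝ) < O.card := by exact_mod_cast hO.card_pos
  have h1 : (0 : ℝ) < (O.filter (fun E => x ∈ E - E)).card := lt_of_lt_of_le (by positivity) h
  have h2 : 0 < (O.filter (fun E => x ∈ E - E)).card := by exact_mod_cast h1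
  obtain ⟨E, hE⟩ := Finset.card_pos.1 h2
  rw [Finset.mem_filter] at hE
  exact Finset.mem_biUnion.2 ⟨E, hE.1, hE.2⟩

theorem pop_lower {O : Finset (Finset Γ)} {m : ℕ} (hm : 0 < m)
    (hcard : ∀ E ∈ O, E.card = m) {K : ℝ} (hK1 : 1 ≤ K)
    (hK : ∀ E ∈ O, ∀ E' ∈ O, ((E + E').card : ℝ) ≤ K * m) {E₀ : Finset Γ} (hE₀ : E₀ ∈ O) :
    (m : ℝ) / (2 * K) ≤ (pop O K).card := by
  have hO : O.Nonempty := ⟨_, hE₀⟩
  have hc : (0 : ℝ) < O.card := by exact_mod_cast hO.card_pos
  have hm' : (0 : ℝ) < m := by exact_mod_cast hm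
  have hK0 : (0 : ℝ) < K := by linarith
  have h1 : ∑ x ∈ E₀ - E₀, ((O.filter (fun E => x ∈ E - E)).card : ℝ) =
      ∑ E ∈ O, (((E₀ - E₀) ∩ (E - E)).card : ℝ) := by
    have h2 : ∀ x ∈ E₀ - E₀, ((O.filter (fun E => x ∈ E - E)).card : ℝ) =
        ∑ E ∈ O, if x ∈ E - E then (1 : ℝ) else 0 := by
      intro x _
      rw [Finset.sum_boole]
    rw [Finset.sum_congr rfl h2, Finset.sum_comm]
    refine Finset.sum_congr rfl (fun E _ => ?_)
    rw [Finset.sum_boole]
    congr 2
  have h3 : (O.card : ℝ) * (m / K) ≤ ∑ x ∈ E₀ - E₀, ((O.filter (fun E => x ∈ E - E)).card : ℝ) := by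
    rw [h1, ← nsmul_eq_mul]
    exact Finset.card_nsmul_le_sum _ _ _ (fun E hE =>
      inter_large hm (hcard _ hE₀) (hcard _ hE) hK0 (hK _ hE₀ _ hE))
  have h4 : ∑ x ∈ E₀ - E₀, ((O.filter (fun E => x ∈ E - E)).card : ℝ) ≤
      (pop O K).card * O.card + (K ^ 2 * m) * (O.card / (2 * K ^ 3)) := by
    have h5 : ∀ x ∈ E₀ - E₀, ((O.filter (fun E => x ∈ E - E)).card : ℝ) ≤
        (if x ∈ pop O K then (O.card : ℝ) else 0) + O.card / (2 * K ^ 3) := by
      intro x _
      split_ifs with hx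
      · have h6 : ((O.filter (fun E => x ∈ E - E)).card : ℝ) ≤ O.card := by
          exact_mod_cast Finset.card_filter_le _ _
        have h7 : 0 ≤ (O.card : ℝ) / (2 * K ^ 3) := by positivity
        linarith
      · rw [mem_pop hO hK1] at hx
        push Not at hx
        linarith
    calc _ ≤ ∑ x ∈ E₀ - E₀, ((if x ∈ pop O K then (O.card : ℝ) else 0) +
          O.card / (2 * K ^ 3)) := Finset.sum_le_sum h5
      _ = ((E₀ - E₀).filter (fun x => x ∈ pop O K)).card * O.card +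
          (E₀ - E₀).card * (O.card / (2 * K ^ 3)) := by
          rw [Finset.sum_add_distrib, ← Finset.sum_filter, Finset.sum_const, Finset.sum_const,
            nsmul_eq_mul, nsmul_eq_mul]
      _ ≤ _ := by
          have h8 : (((E₀ - E₀).filter (fun x => x ∈ pop O K)).card : ℝ) ≤ (pop O K).card := by
            exact_mod_cast Finset.card_le_card (fun x hx => (Finset.mem_filter.1 hx).2)
          have h9 := card_sub_self hm (hcard _ hE₀) (hK _ hE₀ _ hE₀)
          gcongr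
  have h5 : (O.card : ℝ) * (m / K) ≤ (pop O K).card * O.card +
      (K ^ 2 * m) * (O.card / (2 * K ^ 3)) := h3.trans h4
  have h6 : (K ^ 2 * m) * (O.card / (2 * K ^ 3)) = O.card * (m / (2 * K)) := by
    field_simp
  rw [h6] at h5
  have h7 : (m : ℝ) / K = m / (2 * K) + m / (2 * K) := by field_simp; ring
  rw [h7] at h5
  have h8 : (O.card : ℝ) * (m / (2 * K)) ≤ O.card * (pop O K).card := by nlinarith
  exact le_of_mul_le_mul_left h8 hc

theorem pop_upper {O : Finset (Finset Γ)} {m : ℕ} (hm : 0 < m)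
    (hcard : ∀ E ∈ O, E.card = m) {K : ℝ} (hK1 : 1 ≤ K)
    (hK : ∀ E ∈ O, ∀ E' ∈ O, ((E + E').card : ℝ) ≤ K * m) {E₀ : Finset Γ} (hE₀ : E₀ ∈ O) :
    ((E₀ + pop O K).card : ℝ) ≤ 2 * K ^ 8 * m := by
  have hO : O.Nonempty := ⟨_, hE₀⟩
  have hc : (0 : ℝ) < O.card := by exact_mod_cast hO.card_pos
  have hm' : (0 : ℝ) < m := by exact_mod_cast hm
  have hK0 : (0 : ℝ) < K := by linarith
  have h1 : ∀ y ∈ E₀ + pop O K, (O.card : ℝ) / (2 * K ^ 3) ≤
      ∑ E ∈ O, if y ∈ E - E + E₀ then (1 : ℝ) else 0 := by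
    intro y hy
    obtain ⟨e, he, s, hs, rfl⟩ := Finset.mem_add.1 hy
    rw [Finset.sum_boole]
    refine ((mem_pop hO hK1).1 hs).trans ?_
    exact_mod_cast Finset.card_le_card (fun E hE => by
      rw [Finset.mem_filter] at hE ⊢
      refine ⟨hE.1, ?_⟩
      rw [add_comm e s]
      exact Finset.add_mem_add hE.2 he)
  have h2 : ((E₀ + pop O K).card : ℝ) * (O.card / (2 * K ^ 3)) ≤ O.card * (K ^ 5 * m) := by
    calc ((E₀ + pop O K).card : ℝ) * (O.card / (2 * K ^ 3))
        ≤ ∑ y ∈ E₀ + pop O K, ∑ E ∈ O, if y ∈ E - E + E₀ then (1 : ℝ) else 0 := by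
          rw [← nsmul_eq_mul]
          exact Finset.card_nsmul_le_sum _ _ _ h1
      _ = ∑ E ∈ O, ∑ y ∈ E₀ + pop O K, if y ∈ E - E + E₀ then (1 : ℝ) else 0 := Finset.sum_comm
      _ ≤ ∑ E ∈ O, K ^ 5 * m := by
          refine Finset.sum_le_sum (fun E hE => ?_)
          rw [Finset.sum_boole]
          refine le_trans ?_ (triple hm (hcard _ hE) (hcard _ hE₀) hK1 (hK _ hE _ hE₀)
            (hK _ hE _ hE))
          exact_mod_cast Finset.card_le_card (fun y hy => (Finset.mem_filter.1 hy).2)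
      _ = _ := by rw [Finset.sum_const, nsmul_eq_mul]
  have h3 : ((E₀ + pop O K).card : ℝ) * (O.card / (2 * K ^ 3)) ≤
      (2 * K ^ 8 * m) * (O.card / (2 * K ^ 3)) := by
    refine h2.trans (le_of_eq ?_)
    field_simp
  exact le_of_mul_le_mul_right h3 (by positivity)

theorem pop_symm {O : Finset (Finset Γ)} (hO : O.Nonempty) {K : ℝ} (hK1 : 1 ≤ K) {x : Γ}
    (hx : x ∈ pop O K) : -x ∈ pop O K := by
  rw [mem_pop hO hK1] at hx ⊢
  have h1 : O.filter (fun E => -x ∈ E - E) = O.filter (fun E => x ∈ E - E) := by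
    refine Finset.filter_congr (fun E _ => ?_)
    constructor
    · intro h
      obtain ⟨a, ha, b, hb, e⟩ := Finset.mem_sub.1 h
      refine Finset.mem_sub.2 ⟨b, hb, a, ha, ?_⟩
      rw [← neg_neg x, ← e]; abel
    · intro h
      obtain ⟨a, ha, b, hb, e⟩ := Finset.mem_sub.1 h
      refine Finset.mem_sub.2 ⟨b, hb, a, ha, ?_⟩
      rw [← e]; abel
  rw [h1]
  exact hx

end Pool.Agent.U128.Tf
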