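import Pool.Agent.U128.Tf.Main
import Pool.Agent.U128.Tf.Inv

/-!
# Invariant sets in invariant subgroups of logarithmic rank
-/

set_option autoImplicit false
open scoped Pointwise
open Finset

namespace Pool.Agent.U128.Tf

universe u v

variable {Γ : Type u} [AddCommGroup Γ] {G : Type v} [Group G] [DistribMulAction G Γ]

variable (Γ G) in
/-- The elements with finite orbits. -/
def fo : AddSubgroup Γ where
  carrier := {x | (MulAction.orbit G x).Finite}
  zero_mem' := by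
    refine (Set.finite_singleton (0 : Γ)).subset ?_
    rintro _ ⟨g, rfl⟩
    simp
  add_mem' := by
    intro x y hx hy
    refine (Set.Finite.add hx hy).subset ?_
    rintro _ ⟨g, rfl⟩
    exact ⟨g • x, ⟨g, rfl⟩, g • y, ⟨g, rfl⟩, (smul_add g x y).symm⟩
  neg_mem' := by
    intro x hx
    refine (Set.Finite.neg hx).subset ?_
    rintro _ ⟨g, rfl⟩
    refine ⟨g, ?_⟩
    simp

theorem mem_fo {x : Γ} : x ∈ fo Γ G ↔ (MulAction.orbit G x).Finite := Iff.rfl

/-- B. H. Neumann's lemma. -/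
theorem neumann [DecidableEq Γ] (X Y : Finset Γ) (hX : ∀ x ∈ X, x ∉ fo Γ G) :
    ∃ g : G, ∀ x ∈ X, ∀ y ∈ Y, g • x ≠ y := by
  classical
  by_contra hcon
  push Not at hcon
  have hch : ∀ p : Γ × Γ, ∃ g : G, (∃ h : G, h • p.1 = p.2) → g • p.1 = p.2 := by
    intro p
    by_cases h : ∃ h : G, h • p.1 = p.2
    · obtain ⟨g, hg⟩ := h
      exact ⟨g, fun _ => hg⟩
    · exact ⟨1, fun h' => absurd h' h⟩
  choose c hc using hch
  have hcov : ⋃ p ∈ X ×ˢ Y, (c p) • ((MulAction.stabilizer G p.1 : Subgroup G) : Set G) =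
      Set.univ := by
    rw [Set.eq_univ_iff_forall]
    intro g
    obtain ⟨x, hx, y, hy, e⟩ := hcon g
    rw [Set.mem_iUnion₂]
    refine ⟨(x, y), Finset.mem_product.2 ⟨hx, hy⟩, ?_⟩
    rw [Set.mem_smul_set_iff_inv_smul_mem]
    have h1 : c (x, y) • x = y := hc (x, y) ⟨g, e⟩
    change (c (x, y))⁻¹ * g ∈ MulAction.stabilizer G x
    rw [MulAction.mem_stabilizer_iff, mul_smul, e]
    exact inv_smul_eq_iff.2 h1.symm
  obtain ⟨p, hp, hfi⟩ := Subgroup.exists_finiteIndex_of_leftCoset_cover hcov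
  rw [Finset.mem_product] at hp
  apply hX p.1 hp.1
  rw [mem_fo]
  have : Finite (G ⧸ MulAction.stabilizer G p.1) := Subgroup.finite_quotient_of_finiteIndex
  have h2 : Finite (MulAction.orbit G p.1) :=
    Finite.of_equiv _ (MulAction.orbitEquivQuotientStabilizer G p.1).symm
  exact Set.toFinite _

/-- A large part of `A` is in one coset of the subgroup of the elements with finite orbits. -/
theorem large_class [DecidableEq Γ] (A : Finset Γ) (hA : A.Nonempty) (K : ℝ) (hK0 : 0 < K)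
    (hK : ∀ g : G, ((A + g • A).card : ℝ) ≤ K * A.card) :
    ∃ a₀ ∈ A, ∃ A' : Finset Γ, (∀ b, b ∈ A' ↔ b ∈ A ∧ b - a₀ ∈ fo Γ G) ∧
      (A.card : ℝ) / K ≤ A'.card := by
  classical
  have hc : (0 : ℝ) < A.card := by exact_mod_cast hA.card_pos
  obtain ⟨g, hg⟩ := neumann (G := G) ((A - A).filter (fun x => x ∉ fo Γ G)) (A - A)
    (fun x hx => (Finset.mem_filter.1 hx).2)
  have hgA : (g • A).Nonempty := by simpa using hA
  obtain ⟨y, hy, hfib⟩ := Finset.exists_le_card_fiber_of_nsmul_le_card_of_maps_to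
    (s := A ×ˢ A) (t := A + g • A) (f := fun p => p.1 + g • p.2) (b := (A.card : ℝ) / K)
    (fun p hp => by
      rw [Finset.mem_product] at hp
      exact Finset.add_mem_add hp.1 (Finset.smul_mem_smul_finset hp.2))
    (hA.add hgA) (by
      rw [nsmul_eq_mul, Finset.card_product, Nat.cast_mul]
      calc ((A + g • A).card : ℝ) * (A.card / K) ≤ (K * A.card) * (A.card / K) := by
            have := hK g
            gcongr
        _ = A.card * A.card := by field_simp)
  obtain ⟨a₀, ha₀, b₀, hb₀, hab⟩ := Finset.mem_add.1 hy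
  obtain ⟨c₀, hc₀, rfl⟩ := Finset.mem_smul_finset.1 hb₀
  refine ⟨c₀, hc₀, A.filter (fun b => b - c₀ ∈ fo Γ G), fun b => by rw [Finset.mem_filter], ?_⟩
  refine hfib.trans ?_
  have h1 : ((A ×ˢ A).filter (fun p => p.1 + g • p.2 = y)).card ≤
      (A.filter (fun b => b - c₀ ∈ fo Γ G)).card := by
    apply Finset.card_le_card_of_injOn (fun p => p.2)
    · intro p hp
      have hp' := Finset.mem_filter.1 (Finset.mem_coe.1 hp)
      rw [Finset.mem_product] at hp'
      rw [Finset.mem_coe, Finset.mem_filter]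
      refine ⟨hp'.1.2, ?_⟩
      by_contra hno
      refine hg (p.2 - c₀) (Finset.mem_filter.2 ⟨Finset.sub_mem_sub hp'.1.2 hc₀, hno⟩)
        (a₀ - p.1) (Finset.sub_mem_sub ha₀ hp'.1.1) ?_
      have h2 : p.1 + g • p.2 = a₀ + g • c₀ := by rw [hp'.2, hab]
      rw [smul_sub, sub_eq_sub_iff_add_eq_add, add_comm, h2]
    · intro p hp q hq h
      have hp' := (Finset.mem_filter.1 (Finset.mem_coe.1 hp)).2
      have hq' := (Finset.mem_filter.1 (Finset.mem_coe.1 hq)).2
      dsimp only at h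
      refine Prod.ext ?_ h
      rw [h, ← hq'] at hp'
      exact add_right_cancel hp'
  exact_mod_cast h1

/-- The orbit of a finite set of elements with finite orbits is finite. -/
theorem orbit_finite [DecidableEq Γ] (D : Finset Γ) (hD : ∀ x ∈ D, x ∈ fo Γ G) :
    (Set.range (fun g : G => g • D)).Finite := by
  classical
  have h1 : (⋃ x ∈ D, MulAction.orbit G x).Finite :=
    Set.Finite.biUnion D.finite_toSet (fun x hx => hD x hx)
  refine (h1.toFinset.powerset.finite_toSet).subset ?_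
  rintro _ ⟨g, rfl⟩
  rw [Finset.mem_coe, Finset.mem_powerset]
  intro y hy
  obtain ⟨x, hx, rfl⟩ := Finset.mem_smul_finset.1 hy
  rw [Set.Finite.mem_toFinset]
  exact Set.mem_biUnion hx ⟨g, rfl⟩

theorem pop_inv [DecidableEq Γ] {O : Finset (Finset Γ)} (hO : O.Nonempty) {K : ℝ} (hK1 : 1 ≤ K)
    (hinv : ∀ (g : G), ∀ E ∈ O, g • E ∈ O) (g : G) : g • pop O K = pop O K := by
  have h1 : ∀ (g : G) (x : Γ), x ∈ pop O K → g • x ∈ pop O K := by
    intro g x hx
    rw [mem_pop hO hK1] at hx ⊢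
    refine hx.trans ?_
    have h2 : (O.filter (fun E => x ∈ E - E)).card ≤ (O.filter (fun E => g • x ∈ E - E)).card := by
      apply Finset.card_le_card_of_injOn (fun E => g • E)
      · intro E hE
        have hE' := Finset.mem_filter.1 (Finset.mem_coe.1 hE)
        rw [Finset.mem_coe, Finset.mem_filter]
        refine ⟨hinv g E hE'.1, ?_⟩
        obtain ⟨a, ha, b, hb, e⟩ := Finset.mem_sub.1 hE'.2
        refine Finset.mem_sub.2 ⟨g • a, Finset.smul_mem_smul_finset ha, g • b,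
          Finset.smul_mem_smul_finset hb, ?_⟩
        rw [← smul_sub, e]
      · intro E _ E' _ h
        exact smul_left_cancel g h
    exact_mod_cast h2
  apply Finset.Subset.antisymm
  · intro y hy
    obtain ⟨x, hx, rfl⟩ := Finset.mem_smul_finset.1 hy
    exact h1 g x hx
  · intro y hy
    exact Finset.mem_smul_finset.2 ⟨g⁻¹ • y, h1 g⁻¹ y hy, smul_inv_smul g y⟩

/-- **Structure theorem.** -/
theorem struct [DecidableEq Γ] (A : Finset Γ) (hA : A.Nonempty) (K : ℝ)
    (hK : ∀ g : G, ((A + g • A).card : ℝ) ≤ K * A.card) :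
    ∃ (N : AddSubgroup Γ) (S T : Finset Γ) (r : ℕ), (∀ g : G, ∀ x ∈ N, g • x ∈ N) ∧
      (∀ (n : ℤ) (x : Γ), n ≠ 0 → n • x ∈ N → x ∈ N) ∧ Module.rank ℤ N ≤ r ∧
      (∀ x ∈ S, x ∈ N) ∧ (∀ g : G, g • S = S) ∧ (∀ x ∈ S, -x ∈ S) ∧
      (S.card : ℝ) ≤ (2 * K) ^ 60300 * A.card ∧
      ((S + S).card : ℝ) ≤ (2 * K) ^ 60300 * S.card ∧
      (T.card : ℝ) * Real.exp r ≤ (2 * K) ^ 60300 ∧ A ⊆ T + S := by
  classical
  have hc : (0 : ℝ) < A.card := by exact_mod_cast hA.card_pos
  have hAA : ((A + A).card : ℝ) ≤ K * A.card := by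
    have := hK 1
    rwa [one_smul] at this
  have hK1 : 1 ≤ K := by
    have h1 : (A.card : ℝ) ≤ (A + A).card := by
      exact_mod_cast Finset.card_le_card_add_right hA
    nlinarith
  have hK0 : 0 < K := by linarith
  obtain ⟨N, T, r, hNinv, hNpure, hrank, hT, hcovN⟩ := main (G := G) A hA K hK
  obtain ⟨a₀, ha₀, A', hA', hlarge⟩ := large_class (G := G) A hA K hK0 hK
  have hA'A : A' ⊆ A := fun b hb => ((hA' b).1 hb).1
  have ha₀' : a₀ ∈ A' := (hA' a₀).2 ⟨ha₀, by simp [(fo Γ G).zero_mem]⟩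
  have hcA' : (A.card : ℝ) ≤ K * A'.card := by
    rw [div_le_iff₀ hK0] at hlarge
    linarith
  set D := A'.image (fun b => b - a₀) with hD
  have hDc : D.card = A'.card := Finset.card_image_of_injective _ sub_left_injective
  have hDfo : ∀ x ∈ D, x ∈ fo Γ G := by
    intro x hx
    obtain ⟨b, hb, rfl⟩ := Finset.mem_image.1 hx
    exact ((hA' b).1 hb).2
  have hDne : D.Nonempty := ⟨a₀ - a₀, Finset.mem_image_of_mem _ ha₀'⟩
  have hm : 0 < D.card := hDne.card_pos
  have hm' : (0 : ℝ) < D.card := by exact_mod_cast hm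
  have hADm : (A.card : ℝ) ≤ K * D.card := by rw [hDc]; exact hcA'
  have hDA : (D.card : ℝ) ≤ A.card := by
    rw [hDc]; exact_mod_cast Finset.card_le_card hA'A
  -- sums of translates
  have hDk : ∀ k : G, ((D + k • D).card : ℝ) ≤ K ^ 2 * D.card := by
    intro k
    have h1 : D + k • D ⊆ (A + k • A).image (fun x => x - (a₀ + k • a₀)) := by
      intro x hx
      obtain ⟨d, hd, e, he, rfl⟩ := Finset.mem_add.1 hx
      obtain ⟨d', hd', rfl⟩ := Finset.mem_smul_finset.1 he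
      obtain ⟨b, hb, rfl⟩ := Finset.mem_image.1 hd
      obtain ⟨b', hb', rfl⟩ := Finset.mem_image.1 hd'
      refine Finset.mem_image.2 ⟨b + k • b', Finset.add_mem_add (hA'A hb)
        (Finset.smul_mem_smul_finset (hA'A hb')), ?_⟩
      rw [smul_sub]
      abel
    calc ((D + k • D).card : ℝ) ≤ (A + k • A).card := by
          exact_mod_cast (Finset.card_le_card h1).trans Finset.card_image_le
      _ ≤ K * A.card := hK k
      _ ≤ K * (K * D.card) := by gcongr
      _ = _ := by ring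
  set O : Finset (Finset Γ) := (orbit_finite (G := G) D hDfo).toFinset with hO
  have hmemO : ∀ E, E ∈ O ↔ ∃ g : G, g • D = E := by
    intro E
    rw [hO, Set.Finite.mem_toFinset]
    exact Iff.rfl
  have hDO : D ∈ O := (hmemO D).2 ⟨1, one_smul _ _⟩
  have hOne : O.Nonempty := ⟨D, hDO⟩
  have hOcard : ∀ E ∈ O, E.card = D.card := by
    intro E hE
    obtain ⟨g, rfl⟩ := (hmemO E).1 hE
    exact Finset.card_smul_finset g D
  have hOK : ∀ E ∈ O, ∀ E' ∈ O, ((E + E').card : ℝ) ≤ K ^ 2 * D.card := by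
    intro E hE E' hE'
    obtain ⟨g, rfl⟩ := (hmemO E).1 hE
    obtain ⟨h, rfl⟩ := (hmemO E').1 hE'
    have h1 : g • D + h • D = g • (D + (g⁻¹ * h) • D) := by
      rw [smul_add, ← mul_smul, mul_inv_cancel_left]
    rw [h1, Finset.card_smul_finset]
    exact hDk _
  have hOinv : ∀ (g : G), ∀ E ∈ O, g • E ∈ O := by
    intro g E hE
    obtain ⟨h, rfl⟩ := (hmemO E).1 hE
    exact (hmemO _).2 ⟨g * h, mul_smul _ _ _⟩
  have hk1 : 1 ≤ K ^ 2 := by nlinarith
  set B := pop O (K ^ 2) with hB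
  have hBinv : ∀ g : G, g • B = B := pop_inv hOne hk1 hOinv
  have hBsymm : ∀ x ∈ B, -x ∈ B := fun x hx => pop_symm hOne hk1 hx
  have hBlow := pop_lower hm hOcard hk1 hOK hDO
  have hBup := pop_upper hm hOcard hk1 hOK hDO
  rw [← hB] at hBlow hBup
  have hB0 : (0 : ℝ) < B.card := lt_of_lt_of_le (by positivity) hBlow
  have hBne : B.Nonempty := Finset.card_pos.1 (by exact_mod_cast hB0)
  obtain ⟨_, hB8, hB16⟩ := plun hDne hBup
  -- the cover of `D`
  obtain ⟨F', _, hF', hcF'⟩ := Finset.ruzsa_covering_add (A := D) (B := B) hBne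
    (K := 4 * (K ^ 2) ^ 9) (by
      calc ((D + B).card : ℝ) ≤ 2 * (K ^ 2) ^ 8 * D.card := hBup
        _ = (4 * (K ^ 2) ^ 9) * (D.card / (2 * K ^ 2)) := by field_simp; ring
        _ ≤ _ := by gcongr)
  have hA'ne : A'.Nonempty := ⟨a₀, ha₀'⟩
  obtain ⟨F, _, hF, hcF⟩ := Finset.ruzsa_covering_add (A := A) (B := A') hA'ne (K := K ^ 2) (by
      calc ((A + A').card : ℝ) ≤ (A + A).card := by
            exact_mod_cast Finset.card_le_card (Finset.add_subset_add_left hA'A)
        _ ≤ K * A.card := hAA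
        _ ≤ K * (K * A'.card) := by gcongr
        _ = _ := by ring)
  set B4 := B + B + (B + B) with hB4
  set B8 := B4 + B4 with hB8d
  have hneg4 : ∀ x ∈ B4, -x ∈ B4 := by
    intro x hx
    obtain ⟨p, hp, q, hq, rfl⟩ := Finset.mem_add.1 hx
    obtain ⟨a, ha, b, hb, rfl⟩ := Finset.mem_add.1 hp
    obtain ⟨c, hc, d, hd, rfl⟩ := Finset.mem_add.1 hq
    have e : -(a + b + (c + d)) = -a + -b + (-c + -d) := by abel
    rw [e]
    exact Finset.add_mem_add (Finset.add_mem_add (hBsymm a ha) (hBsymm b hb))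
      (Finset.add_mem_add (hBsymm c hc) (hBsymm d hd))
  set F'' := F + (F' - F') with hF''
  have hcA : A ⊆ F'' + B4 := by
    intro a ha
    obtain ⟨f, hf, x, hx, rfl⟩ := Finset.mem_add.1 (hcF ha)
    obtain ⟨p, hp, q, hq, rfl⟩ := Finset.mem_sub.1 hx
    have hp1 : p - a₀ ∈ D := Finset.mem_image_of_mem _ hp
    have hq1 : q - a₀ ∈ D := Finset.mem_image_of_mem _ hq
    obtain ⟨f1, hf1, x1, hx1, e1⟩ := Finset.mem_add.1 (hcF' hp1)
    obtain ⟨f2, hf2, x2, hx2, e2⟩ := Finset.mem_add.1 (hcF' hq1)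
    obtain ⟨s1, hs1, s2, hs2, rfl⟩ := Finset.mem_sub.1 hx1
    obtain ⟨s3, hs3, s4, hs4, rfl⟩ := Finset.mem_sub.1 hx2
    refine Finset.mem_add.2 ⟨f + (f1 - f2), Finset.add_mem_add hf (Finset.sub_mem_sub hf1 hf2),
      s1 + -s2 + (-s3 + s4), ?_, ?_⟩
    · exact Finset.add_mem_add (Finset.add_mem_add hs1 (hBsymm _ hs2))
        (Finset.add_mem_add (hBsymm _ hs3) hs4)
    · have e3 : p - q = (f1 + (s1 - s2)) - (f2 + (s3 - s4)) := by rw [e1, e2]; abel
      rw [e3]
      abel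
  have hF''c : (F''.card : ℝ) ≤ 16 * (K ^ 2) ^ 19 := by
    have h1 : F''.card ≤ F.card * (F'.card * F'.card) :=
      Finset.card_add_le.trans (Nat.mul_le_mul_left _ Finset.card_sub_le)
    calc (F''.card : ℝ) ≤ F.card * (F'.card * F'.card) := by exact_mod_cast h1
      _ ≤ K ^ 2 * ((4 * (K ^ 2) ^ 9) * (4 * (K ^ 2) ^ 9)) := by gcongr
      _ = _ := by ring
  -- the invariant set
  set S := B8.filter (fun x => x ∈ N) with hS
  let z : Γ × Γ → Γ := fun p => if h : ∃ a ∈ A, a - p.1 ∈ B4 ∧ a - p.2 ∈ N then h.choose else 0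
  have hz : ∀ p : Γ × Γ, ∀ a ∈ A, a - p.1 ∈ B4 → a - p.2 ∈ N →
      z p ∈ A ∧ z p - p.1 ∈ B4 ∧ z p - p.2 ∈ N := by
    intro p a ha h1 h2
    have h : ∃ a ∈ A, a - p.1 ∈ B4 ∧ a - p.2 ∈ N := ⟨a, ha, h1, h2⟩
    have e : z p = h.choose := dif_pos h
    rw [e]
    exact h.choose_spec
  set T' := (F'' ×ˢ T).image z with hT'
  have hcAT : A ⊆ T' + S := by
    intro a ha
    obtain ⟨f, hf, s, hs, e⟩ := Finset.mem_add.1 (hcA ha)
    obtain ⟨t, ht, hat⟩ := hcovN a ha
    have h1 : a - f = s := by rw [← e]; abel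
    obtain ⟨_, hz2, hz3⟩ := hz (f, t) a ha (by rw [h1]; exact hs) hat
    refine Finset.mem_add.2 ⟨z (f, t), Finset.mem_image_of_mem _
      (Finset.mem_product.2 ⟨hf, ht⟩), a - z (f, t), ?_, by abel⟩
    rw [hS, Finset.mem_filter]
    constructor
    · have h2 : a - z (f, t) = s + -(z (f, t) - f) := by rw [← h1]; abel
      rw [h2]
      exact Finset.add_mem_add hs (hneg4 _ hz2)
    · have h2 := N.sub_mem hat hz3
      have h3 : a - t - (z (f, t) - t) = a - z (f, t) := by abel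
      rwa [h3] at h2
  have hB8inv : ∀ (g : G), ∀ x ∈ B8, g • x ∈ B8 := by
    intro g x hx
    have h1 : g • B8 = B8 := by
      rw [hB8d, hB4, smul_add, smul_add, smul_add, hBinv]
    rw [← h1]
    exact Finset.smul_mem_smul_finset hx
  have hSinv' : ∀ (g : G), ∀ x ∈ S, g • x ∈ S := by
    intro g x hx
    rw [hS, Finset.mem_filter] at hx ⊢
    exact ⟨hB8inv g x hx.1, hNinv g x hx.2⟩
  have hT'c : (T'.card : ℝ) ≤ 16 * (K ^ 2) ^ 19 * T.card := by
    have h1 : T'.card ≤ F''.card * T.card := by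
      refine Finset.card_image_le.trans ?_
      rw [Finset.card_product]
    calc (T'.card : ℝ) ≤ F''.card * T.card := by exact_mod_cast h1
      _ ≤ _ := by gcongr
  have hT'e : (T'.card : ℝ) * Real.exp r ≤ (2 * K) ^ 60040 := by
    have hK2 : K ≤ 2 * K := by linarith
    have h2K : (1 : ℝ) ≤ 2 * K := by linarith
    calc (T'.card : ℝ) * Real.exp r ≤ (16 * (K ^ 2) ^ 19 * T.card) * Real.exp r := by gcongr
      _ = (16 * K ^ 38) * (T.card * Real.exp r) := by ring
      _ ≤ (16 * K ^ 38) * (2 * K) ^ 60002 := by gcongr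
      _ ≤ (2 * K) ^ 38 * (2 * K) ^ 60002 := by
          gcongr
          rw [mul_pow]
          have h3 : (16 : ℝ) ≤ 2 ^ 38 := by norm_num
          gcongr
      _ = _ := (pow_add _ _ _).symm
  have hexp : (1 : ℝ) ≤ Real.exp r := by
    rw [← Real.exp_zero]
    exact Real.exp_le_exp.2 (by positivity)
  have hT'0 : (T'.card : ℝ) ≤ (2 * K) ^ 60040 := by
    refine le_trans ?_ hT'e
    have : (0 : ℝ) ≤ T'.card := by positivity
    nlinarith
  have h2K : (1 : ℝ) ≤ 2 * K := by linarith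
  have hAS : (A.card : ℝ) ≤ (2 * K) ^ 60040 * S.card := by
    calc (A.card : ℝ) ≤ (T' + S).card := by exact_mod_cast Finset.card_le_card hcAT
      _ ≤ T'.card * S.card := by exact_mod_cast Finset.card_add_le
      _ ≤ _ := by gcongr
  have hS8 : (S.card : ℝ) ≤ (2 * K) ^ 128 * A.card := by
    calc (S.card : ℝ) ≤ B8.card := by exact_mod_cast Finset.card_filter_le _ _
      _ ≤ (2 * (K ^ 2) ^ 8) ^ 8 * D.card := hB8
      _ ≤ (2 * (K ^ 2) ^ 8) ^ 8 * A.card := by gcongr
      _ ≤ _ := by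
          gcongr
          have h3 : (2 * (K ^ 2) ^ 8) ^ 8 = 2 ^ 8 * K ^ 128 := by ring
          rw [h3, mul_pow]
          have h4 : (2 : ℝ) ^ 8 ≤ 2 ^ 128 := by norm_num
          gcongr
  have hSS : ((S + S).card : ℝ) ≤ (2 * K) ^ 256 * A.card := by
    calc ((S + S).card : ℝ) ≤ (B8 + B8).card := by
          exact_mod_cast Finset.card_le_card (Finset.add_subset_add
            (Finset.filter_subset _ _) (Finset.filter_subset _ _))
      _ ≤ (2 * (K ^ 2) ^ 8) ^ 16 * D.card := hB16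
      _ ≤ (2 * (K ^ 2) ^ 8) ^ 16 * A.card := by gcongr
      _ ≤ _ := by
          gcongr
          have h3 : (2 * (K ^ 2) ^ 8) ^ 16 = 2 ^ 16 * K ^ 256 := by ring
          rw [h3, mul_pow]
          have h4 : (2 : ℝ) ^ 16 ≤ 2 ^ 256 := by norm_num
          gcongr
  refine ⟨N, S, T', r, hNinv, hNpure, hrank, ?_, ?_, ?_, ?_, ?_, ?_, hcAT⟩
  · intro x hx
    exact (Finset.mem_filter.1 hx).2
  · intro g
    apply Finset.Subset.antisymm
    · intro y hy
      obtain ⟨x, hx, rfl⟩ := Finset.mem_smul_finset.1 hy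
      exact hSinv' g x hx
    · intro y hy
      exact Finset.mem_smul_finset.2 ⟨g⁻¹ • y, hSinv' g⁻¹ y hy, smul_inv_smul g y⟩
  · intro x hx
    rw [hS, Finset.mem_filter] at hx ⊢
    refine ⟨?_, N.neg_mem hx.2⟩
    obtain ⟨a, ha, b, hb, rfl⟩ := Finset.mem_add.1 hx.1
    rw [neg_add]
    exact Finset.add_mem_add (hneg4 a ha) (hneg4 b hb)
  · refine hS8.trans ?_
    gcongr
    norm_num
  · calc ((S + S).card : ℝ) ≤ (2 * K) ^ 256 * A.card := hSS
      _ ≤ (2 * K) ^ 256 * ((2 * K) ^ 60040 * S.card) := by gcongr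
      _ = (2 * K) ^ (256 + 60040) * S.card := by rw [pow_add]; ring
      _ ≤ _ := by
          gcongr
          norm_num
  · refine hT'e.trans ?_
    gcongr
    norm_num

/-- Converse. -/
theorem conv [DecidableEq Γ] (A S T : Finset Γ) (L : ℝ) (hL : 0 ≤ L)
    (hinv : ∀ g : G, g • S = S) (hSA : (S.card : ℝ) ≤ L * A.card)
    (hSS : ((S + S).card : ℝ) ≤ L * S.card) (hT : (T.card : ℝ) ≤ L) (hcov : A ⊆ T + S) (g : G) :
    ((A + g • A).card : ℝ) ≤ L ^ 4 * A.card := by
  have h1 : A + g • A ⊆ (T + g • T) + (S + S) := by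
    intro x hx
    obtain ⟨a, ha, y, hy, rfl⟩ := Finset.mem_add.1 hx
    obtain ⟨b, hb, rfl⟩ := Finset.mem_smul_finset.1 hy
    obtain ⟨t, ht, s, hs, rfl⟩ := Finset.mem_add.1 (hcov ha)
    obtain ⟨t', ht', s', hs', rfl⟩ := Finset.mem_add.1 (hcov hb)
    refine Finset.mem_add.2 ⟨t + g • t', Finset.add_mem_add ht (Finset.smul_mem_smul_finset ht'),
      s + g • s', Finset.add_mem_add hs ?_, ?_⟩
    · rw [← hinv g]
      exact Finset.smul_mem_smul_finset hs'
    · rw [smul_add]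
      abel
  have h2 : ((A + g • A).card : ℝ) ≤ (T.card * T.card) * (S + S).card := by
    have h3 : (A + g • A).card ≤ (T.card * T.card) * (S + S).card := by
      refine (Finset.card_le_card h1).trans (Finset.card_add_le.trans ?_)
      refine Nat.mul_le_mul_right _ (Finset.card_add_le.trans ?_)
      rw [Finset.card_smul_finset]
    exact_mod_cast h3
  calc ((A + g • A).card : ℝ) ≤ (T.card * T.card) * (S + S).card := h2
    _ ≤ (L * L) * (L * (L * A.card)) := by
        have h4 : ((S + S).card : ℝ) ≤ L * (L * A.card) := hSS.trans (by gcongr)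
        gcongr
    _ = _ := by ring

end Pool.Agent.U128.Tf
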