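import Mathlib

/-!
# An invariance principle for submodular functions on subspaces and arbitrary groups
-/

set_option autoImplicit false

namespace Pool.Agent.U128.Tf

variable {K V G : Type*} [Field K] [AddCommGroup V] [Module K V] [Group G]

/-- The functions obtained from the `F g` by taking mean values. -/
inductive Fam (F : G → Submodule K V → ℝ) : (Submodule K V → ℝ) → Prop
  | base (g : G) : Fam F (F g)
  | mid {f f' : Submodule K V → ℝ} : Fam F f → Fam F f' → Fam F (fun U => (f U + f' U) / 2)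

variable {F : G → Submodule K V → ℝ}

theorem Fam.submod (h : ∀ (g : G) (U U' : Submodule K V), FiniteDimensional K U →
      FiniteDimensional K U' → F g (U ⊓ U') + F g (U ⊔ U') ≤ F g U + F g U')
    {f : Submodule K V → ℝ} (hf : Fam F f) : ∀ (U U' : Submodule K V), FiniteDimensional K U →
      FiniteDimensional K U' → f (U ⊓ U') + f (U ⊔ U') ≤ f U + f U' := by
  induction hf with
  | base g => exact h g
  | mid _ _ h1 h2 =>
    intro U U' hU hU'
    have := h1 U U' hU hU'
    have := h2 U U' hU hU'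
    dsimp only
    linarith

theorem Fam.lower (h : ∀ (g : G) (U : Submodule K V), FiniteDimensional K U →
      (Module.finrank K U : ℝ) ≤ F g U)
    {f : Submodule K V → ℝ} (hf : Fam F f) : ∀ (U : Submodule K V), FiniteDimensional K U →
      (Module.finrank K U : ℝ) ≤ f U := by
  induction hf with
  | base g => exact h g
  | mid _ _ h1 h2 =>
    intro U hU
    have := h1 U hU
    have := h2 U hU
    dsimp only
    linarith

theorem Fam.upper {W : Submodule K V} {B : ℝ} (h : ∀ g : G, F g W ≤ B)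
    {f : Submodule K V → ℝ} (hf : Fam F f) : f W ≤ B := by
  induction hf with
  | base g => exact h g
  | mid _ _ h1 h2 =>
    dsimp only
    linarith

theorem Fam.const {W : Submodule K V} {B : ℝ} (h : ∀ g : G, F g W = B)
    {f : Submodule K V → ℝ} (hf : Fam F f) : f W = B := by
  induction hf with
  | base g => exact h g
  | mid _ _ h1 h2 =>
    dsimp only
    linarith

theorem map_map_inv (ρ : G →* (V ≃ₗ[K] V)) (h : G) (U : Submodule K V) :
    (U.map (ρ h⁻¹ : V →ₗ[K] V)).map (ρ h : V →ₗ[K] V) = U := by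
  rw [← Submodule.map_comp]
  have : (ρ h : V →ₗ[K] V) ∘ₗ (ρ h⁻¹ : V →ₗ[K] V) = LinearMap.id := by
    ext x
    have h1 : (ρ h * ρ h⁻¹) x = x := by rw [← map_mul]; simp
    exact h1
  rw [this, Submodule.map_id]

theorem Fam.act (ρ : G →* (V ≃ₗ[K] V))
    (h : ∀ (g h : G) (U : Submodule K V), F (h * g) (U.map (ρ h : V →ₗ[K] V)) = F g U)
    (k : G) {f : Submodule K V → ℝ} (hf : Fam F f) :
    Fam F (fun U => f (U.map (ρ k⁻¹ : V →ₗ[K] V))) := by
  induction hf with
  | base g =>
    have h1 : (fun U : Submodule K V => F g (U.map (ρ k⁻¹ : V →ₗ[K] V))) = F (k * g) := by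
      funext U
      rw [← h g k, map_map_inv]
    rw [h1]
    exact Fam.base _
  | mid _ _ h1 h2 => exact Fam.mid h1 h2

/-- **The invariance principle.** -/
theorem invariance (ρ : G →* (V ≃ₗ[K] V)) (F : G → Submodule K V → ℝ)
    (hsub : ∀ (g : G) (U U' : Submodule K V), FiniteDimensional K U →
      FiniteDimensional K U' → F g (U ⊓ U') + F g (U ⊔ U') ≤ F g U + F g U')
    (hlow : ∀ (g : G) (U : Submodule K V), FiniteDimensional K U →
      (Module.finrank K U : ℝ) ≤ F g U)
    (hact : ∀ (g h : G) (U : Submodule K V), F (h * g) (U.map (ρ h : V →ₗ[K] V)) = F g U)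
    (W : Submodule K V) (hW : FiniteDimensional K W) (B : ℝ) (hB : ∀ g : G, F g W ≤ B)
    (ε : ℝ) (hε : 0 < ε) :
    ∃ U : Submodule K V, FiniteDimensional K U ∧
      (∀ g : G, U.map (ρ g : V →ₗ[K] V) = U) ∧ F 1 U ≤ B + ε := by
  classical
  set S : Set ℝ := {c | ∃ f, Fam F f ∧ ∀ U : Submodule K V, FiniteDimensional K U → c ≤ f U}
    with hS
  have hbdd : BddAbove S := by
    refine ⟨B, ?_⟩
    rintro c ⟨f, hf, h⟩
    exact (h W hW).trans (hf.upper hB)
  have hne : S.Nonempty := by
    refine ⟨0, F 1, Fam.base 1, fun U hU => ?_⟩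
    have := hlow 1 U hU
    have h2 : (0 : ℝ) ≤ Module.finrank K U := by positivity
    linarith
  set s := sSup S with hs
  have hsB : s ≤ B := csSup_le hne (by
    rintro c ⟨f, hf, h⟩
    exact (h W hW).trans (hf.upper hB))
  -- near minimisers exist
  have hmin : ∀ f, Fam F f → ∀ e : ℝ, 0 < e →
      ∃ U : Submodule K V, FiniteDimensional K U ∧ f U ≤ s + e := by
    intro f hf e he
    by_contra hcon
    push Not at hcon
    have h1 : s + e ∈ S := ⟨f, hf, fun U hU => (hcon U hU).le⟩
    have := le_csSup hbdd h1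
    linarith
  -- near maximal functions exist
  have hmax : ∀ e : ℝ, 0 < e → ∃ f, Fam F f ∧
      ∀ U : Submodule K V, FiniteDimensional K U → s - e ≤ f U := by
    intro e he
    obtain ⟨c, ⟨f, hf, h⟩, hc⟩ := exists_lt_of_lt_csSup hne (show s - e < s by linarith)
    exact ⟨f, hf, fun U hU => hc.le.trans (h U hU)⟩
  let P : ℕ → Prop := fun n => ∃ e : ℝ, 0 < e ∧ ∀ e' : ℝ, 0 < e' → ∃ f, Fam F f ∧
    (∀ U : Submodule K V, FiniteDimensional K U → s - e' ≤ f U) ∧
    (∀ U : Submodule K V, FiniteDimensional K U → f U ≤ s + e → n ≤ Module.finrank K U)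
  have hP0 : P 0 := by
    refine ⟨1, one_pos, fun e' he' => ?_⟩
    obtain ⟨f, hf, h⟩ := hmax e' he'
    exact ⟨f, hf, h, fun _ _ _ => Nat.zero_le _⟩
  have hPb : ∀ n, P n → n ≤ ⌊s + 1⌋₊ := by
    rintro n ⟨e, he, h⟩
    obtain ⟨f, hf, h1, h2⟩ := h 1 one_pos
    obtain ⟨U, hU, h3⟩ := hmin f hf (min e 1) (lt_min he one_pos)
    have h4 := h2 U hU (h3.trans (by gcongr; exact min_le_left _ _))
    have h5 := hf.lower hlow U hU
    have h6 : (n : ℝ) ≤ Module.finrank K U := by exact_mod_cast h4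
    refine Nat.le_floor ?_
    have h7 := min_le_right e 1
    linarith
  obtain ⟨E, hE, hE'⟩ : ∃ E, P E ∧ ¬ P (E + 1) := by
    by_contra hcon
    push Not at hcon
    have h1 : ∀ n, P n := by
      intro n
      induction n with
      | zero => exact hP0
      | succ n ih => exact hcon n ih
    have := hPb _ (h1 (⌊s + 1⌋₊ + 1))
    omega
  obtain ⟨e0, he0, hPE⟩ := hE
  set η := min e0 ε with hη
  have hη0 : 0 < η := lt_min he0 hε
  have hηe : η ≤ e0 := min_le_left _ _
  have hηε : η ≤ ε := min_le_right _ _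
  set e1 := η / 8 with he1
  have he10 : 0 < e1 := by positivity
  obtain ⟨d0, hd0, hd⟩ : ∃ d : ℝ, 0 < d ∧ ∀ f, Fam F f →
      (∀ U : Submodule K V, FiniteDimensional K U → s - d ≤ f U) →
      ∃ U : Submodule K V, FiniteDimensional K U ∧ f U ≤ s + e1 ∧ Module.finrank K U ≤ E := by
    by_contra hcon
    apply hE'
    refine ⟨e1, he10, fun e' he' => ?_⟩
    by_contra hno
    apply hcon
    refine ⟨e', he', fun f hf h1 => ?_⟩
    by_contra h2
    apply hno
    refine ⟨f, hf, h1, fun U hU h3 => ?_⟩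
    by_contra h4
    exact h2 ⟨U, hU, h3, by omega⟩
  set d := min d0 e1 with hdd
  have hd1 : 0 < d := lt_min hd0 he10
  have hd2 : d ≤ d0 := min_le_left _ _
  have hd3 : d ≤ e1 := min_le_right _ _
  obtain ⟨f, hf, hfn, hfE⟩ := hPE d hd1
  -- uniqueness
  have huniq : ∀ U1 U2 : Submodule K V, FiniteDimensional K U1 → FiniteDimensional K U2 →
      f U1 ≤ s + 3 * e1 → f U2 ≤ s + 3 * e1 → Module.finrank K U1 ≤ E →
      Module.finrank K U2 ≤ E → U1 = U2 := by
    intro U1 U2 hU1 hU2 h1 h2 h3 h4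
    have h5 := hf.submod hsub U1 U2 hU1 hU2
    have h6 := hfn (U1 ⊔ U2) inferInstance
    have h7 : f (U1 ⊓ U2) ≤ s + e0 := by linarith
    have h8 := hfE (U1 ⊓ U2) inferInstance h7
    have h9 : U1 ⊓ U2 = U1 := Submodule.eq_of_le_of_finrank_le inf_le_left (by omega)
    have h10 : U1 ⊓ U2 = U2 := Submodule.eq_of_le_of_finrank_le inf_le_right (by omega)
    rw [← h9, h10]
  have hstep : ∀ h : G, ∃ U : Submodule K V, FiniteDimensional K U ∧ f U ≤ s + 3 * e1 ∧
      f (U.map (ρ h⁻¹ : V →ₗ[K] V)) ≤ s + 3 * e1 ∧ Module.finrank K U ≤ E := by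
    intro h
    have hg := Fam.act ρ hact h hf
    obtain ⟨U, hU, h1, h2⟩ := hd _ (Fam.mid hf hg) (by
      intro U hU
      have h3 := hfn U hU
      have h4 := hfn (U.map (ρ h⁻¹ : V →ₗ[K] V)) inferInstance
      linarith)
    have h3 := hfn U hU
    have h4 := hfn (U.map (ρ h⁻¹ : V →ₗ[K] V)) inferInstance
    exact ⟨U, hU, by linarith, by linarith, h2⟩
  obtain ⟨U, hU, hfU, _, hUE⟩ := hstep 1
  have hinv : ∀ h : G, U.map (ρ h⁻¹ : V →ₗ[K] V) = U := by
    intro h
    obtain ⟨U', hU', h1, h2, h3⟩ := hstep h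
    have h4 : U' = U := huniq U' U hU' hU h1 hfU h3 hUE
    rw [h4] at h2 h3
    refine huniq _ U inferInstance hU h2 hfU ?_ hUE
    exact (Submodule.finrank_map_le _ _).trans h3
  have hinv' : ∀ h : G, U.map (ρ h : V →ₗ[K] V) = U := by
    intro h
    have := hinv h⁻¹
    rwa [inv_inv] at this
  refine ⟨U, hU, hinv', ?_⟩
  have hc : ∀ g : G, F g U = F 1 U := by
    intro g
    have := hact 1 g U
    rw [mul_one, hinv' g] at this
    exact this
  have h1 := hf.const hc
  rw [← h1]
  linarith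

end Pool.Agent.U128.Tf
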