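import Pool.Agent.U128.Tf.Ent
import Pool.Agent.U128.Tf.Prin
import Pool.Agent.W860.OB.Gap

/-!
# Invariant pure subgroups of logarithmic rank
-/

set_option autoImplicit false
open scoped Pointwise TensorProduct

namespace Pool.Agent.U128.Tf

universe u v

variable {Γ : Type u} [AddCommGroup Γ] {G : Type v} [Group G] [DistribMulAction G Γ]

theorem ent_anti {R M : Type*} [Ring R] [AddCommGroup M] [Module R M] {A : Finset M}
    {U U' : Submodule R M} (h : U ≤ U') : ent A U' ≤ ent A U := by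
  rw [ent, ent]
  have h1 : ∑ a ∈ A, Real.log (nb A U a) ≤ ∑ a ∈ A, Real.log (nb A U' a) :=
    Finset.sum_le_sum (fun a ha => Real.log_le_log (by exact_mod_cast nb_pos ha)
      (by exact_mod_cast nb_mono h a))
  have h2 := div_le_div_of_nonneg_right h1 (by positivity : (0 : ℝ) ≤ A.card)
  linarith

/-- The map to the rational vector space. -/
noncomputable def io (Γ : Type u) [AddCommGroup Γ] : Γ →ₗ[ℤ] ℚ ⊗[ℤ] Γ :=
  TensorProduct.mk ℤ ℚ Γ 1

/-- The action on `Γ` by linear equivalences. -/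
def sg (g : G) : Γ ≃ₗ[ℤ] Γ := (DistribMulAction.toAddEquiv Γ g).toIntLinearEquiv

@[simp] theorem sg_apply (g : G) (x : Γ) : sg g x = g • x := rfl

/-- The action on the rational vector space. -/
noncomputable def rho (Γ : Type u) [AddCommGroup Γ] (G : Type v) [Group G]
    [DistribMulAction G Γ] : G →* ((ℚ ⊗[ℤ] Γ) ≃ₗ[ℚ] (ℚ ⊗[ℤ] Γ)) where
  toFun g := LinearEquiv.baseChange ℤ ℚ Γ Γ (sg g)
  map_one' := by
    apply LinearEquiv.toLinearMap_injective
    ext x
    simp
  map_mul' g h := by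
    apply LinearEquiv.toLinearMap_injective
    ext x
    simp [mul_smul]

theorem rho_io (g : G) (x : Γ) : rho Γ G g (io Γ x) = io Γ (g • x) := by
  change (LinearEquiv.baseChange ℤ ℚ Γ Γ (sg g)) ((1 : ℚ) ⊗ₜ[ℤ] x) = (1 : ℚ) ⊗ₜ[ℤ] (g • x)
  simp

/-- The preimage of a subspace. -/
noncomputable def cm (U : Submodule ℚ (ℚ ⊗[ℤ] Γ)) : Submodule ℤ Γ :=
  (U.restrictScalars ℤ).comap (io Γ)

theorem mem_cm {U : Submodule ℚ (ℚ ⊗[ℤ] Γ)} {x : Γ} : x ∈ cm U ↔ io Γ x ∈ U := Iff.rfl

theorem cm_inf (U U' : Submodule ℚ (ℚ ⊗[ℤ] Γ)) : cm (U ⊓ U') = cm U ⊓ cm U' := rfl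

theorem cm_sup (U U' : Submodule ℚ (ℚ ⊗[ℤ] Γ)) : cm U ⊔ cm U' ≤ cm (U ⊔ U') := by
  refine sup_le (fun x hx => ?_) (fun x hx => ?_)
  · exact Submodule.mem_sup_left (hx : io Γ x ∈ U)
  · exact Submodule.mem_sup_right (hx : io Γ x ∈ U')

theorem cm_map (h : G) (U : Submodule ℚ (ℚ ⊗[ℤ] Γ)) :
    cm (U.map (rho Γ G h : (ℚ ⊗[ℤ] Γ) →ₗ[ℚ] (ℚ ⊗[ℤ] Γ))) =
      (cm U).map ((sg h : Γ ≃ₗ[ℤ] Γ) : Γ →ₗ[ℤ] Γ) := by
  ext x
  rw [mem_cm]
  constructor
  · rintro ⟨y, hy, e⟩
    refine ⟨h⁻¹ • x, ?_, by simp⟩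
    have h1 : io Γ (h⁻¹ • x) = y := by
      apply (rho Γ G h).injective
      rw [rho_io, smul_inv_smul]
      exact e.symm
    change io Γ (h⁻¹ • x) ∈ U
    rw [h1]
    exact hy
  · rintro ⟨y, hy, rfl⟩
    exact ⟨io Γ y, hy, rho_io h y⟩

theorem rank_cm {U : Submodule ℚ (ℚ ⊗[ℤ] Γ)} (hU : FiniteDimensional ℚ U) :
    Module.rank ℤ (cm U) ≤ Module.finrank ℚ U := by
  haveI : IsLocalizedModule (nonZeroDivisors ℤ) (io Γ) :=
    (isLocalizedModule_iff_isBaseChange (nonZeroDivisors ℤ) ℚ (io Γ)).2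
      (TensorProduct.isBaseChange ℤ Γ ℚ)
  refine rank_le (fun s hs => ?_)
  have h1 : LinearIndependent ℤ (fun i : s => ((i : cm U) : Γ)) :=
    hs.map' (cm U).subtype (Submodule.ker_subtype _)
  have h2 : LinearIndependent ℚ (io Γ ∘ fun i : s => ((i : cm U) : Γ)) :=
    LinearIndependent.of_isLocalizedModule ℚ (nonZeroDivisors ℤ) (io Γ) h1
  have h3 : LinearIndependent ℚ (fun i : s => (⟨io Γ ((i : cm U) : Γ), i.1.2⟩ : U)) := by
    apply LinearIndependent.of_comp U.subtype
    exact h2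
  have h4 := h3.fintype_card_le_finrank
  simpa using h4

/-- **Core theorem.** -/
theorem main [DecidableEq Γ] (A : Finset Γ) (hA : A.Nonempty) (K : ℝ)
    (hK : ∀ g : G, ((A + g • A).card : ℝ) ≤ K * A.card) :
    ∃ (N : AddSubgroup Γ) (T : Finset Γ) (r : ℕ), (∀ g : G, ∀ x ∈ N, g • x ∈ N) ∧
      (∀ (n : ℤ) (x : Γ), n ≠ 0 → n • x ∈ N → x ∈ N) ∧ Module.rank ℤ N ≤ r ∧
      (T.card : ℝ) * Real.exp r ≤ (2 * K) ^ 60002 ∧ ∀ a ∈ A, ∃ t ∈ T, a - t ∈ N := by
  classical
  have hc : (0 : ℝ) < A.card := by exact_mod_cast hA.card_pos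
  have hAA : ((A + A).card : ℝ) ≤ K * A.card := by
    have := hK 1
    rwa [one_smul] at this
  have hK1 : 1 ≤ K := by
    have h1 : (A.card : ℝ) ≤ (A + A).card := by
      exact_mod_cast Finset.card_le_card_add_right hA
    nlinarith
  set L := Real.log (2 * K) with hL
  have hLK : Real.log K + Real.log 2 = L := by
    rw [hL, Real.log_mul (by norm_num) (by positivity)]
    ring
  have hlK : 0 ≤ Real.log K := Real.log_nonneg hK1
  obtain ⟨k, v, _, H₀, T, hk, hH, _, hT, hcov⟩ :=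
    W860.OB.gap_cover hA hAA (ε₀ := 1) one_pos le_rfl
  rw [div_one] at hk hT
  set W : Submodule ℚ (ℚ ⊗[ℤ] Γ) := Submodule.span ℚ (Set.range fun i => io Γ (v i)) with hWd
  have hW : FiniteDimensional ℚ W := FiniteDimensional.span_of_finite ℚ (Set.finite_range _)
  have hWk : (Module.finrank ℚ W : ℝ) ≤ 30000 * L := by
    have h1 : Module.finrank ℚ W ≤ k := by
      have := finrank_range_le_card (R := ℚ) (fun i => io Γ (v i))
      simpa [Set.finrank] using this
    have h2 : (Module.finrank ℚ W : ℝ) ≤ k := by exact_mod_cast h1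
    exact h2.trans hk
  have hAcov : ∀ a ∈ A, ∃ t ∈ T, a - t ∈ cm W := by
    intro a ha
    obtain ⟨t, ht, c, _, h, hh, e⟩ := hcov a ha
    refine ⟨t, ht, ?_⟩
    rw [mem_cm, e]
    have h1 : t + ∑ i, c i • v i + h - t = ∑ i, c i • v i + h := by abel
    rw [h1, map_add, map_sum]
    have h2 : io Γ h = 0 := by
      have h3 : (Nat.card H₀ : ℤ) • h = 0 := by
        have h4 : Nat.card H₀ • (⟨h, hh⟩ : H₀) = 0 := card_nsmul_eq_zero'
        have h5 := congrArg H₀.subtype h4
        rw [map_nsmul, map_zero] at h5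
        rw [natCast_zsmul]
        exact h5
      have h6 : (Nat.card H₀ : ℤ) • io Γ h = 0 := by rw [← map_zsmul, h3, map_zero]
      have h7 : ((Nat.card H₀ : ℤ) : ℚ) • io Γ h = 0 := by
        rw [Int.cast_smul_eq_zsmul]
        exact h6
      rcases smul_eq_zero.1 h7 with h8 | h8
      · exfalso
        have : (Nat.card H₀ : ℚ) ≠ 0 := by exact_mod_cast Nat.card_pos.ne'
        exact this (by exact_mod_cast h8)
      · exact h8
    rw [h2, add_zero]
    refine Submodule.sum_mem _ (fun i _ => ?_)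
    rw [map_zsmul, ← Int.cast_smul_eq_zsmul ℚ]
    exact Submodule.smul_mem _ _ (Submodule.subset_span ⟨i, rfl⟩)
  have hTpos : (0 : ℝ) < T.card := by
    obtain ⟨a, ha⟩ := hA
    obtain ⟨t, ht, _⟩ := hAcov a ha
    exact_mod_cast Finset.card_pos.2 ⟨t, ht⟩
  -- a cover of `g A`
  have hgent : ∀ g : G, ent (g • A) (cm W) ≤ Real.log K + Real.log T.card := by
    intro g
    obtain ⟨a0, ha0, hlarge⟩ := exists_large hA (ent_le_of_cover hA hAcov)
    rw [Real.exp_neg, Real.exp_log hTpos] at hlarge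
    set A' := A.filter (fun b => b - a0 ∈ cm W) with hA'
    have hA'c : (A'.card : ℝ) = nb A (cm W) a0 := by
      rw [nb, hA']
    have hA'ne : A'.Nonempty := ⟨a0, by simp [hA', ha0]⟩
    have h1 : ((g • A + A').card : ℝ) ≤ (K * T.card) * A'.card := by
      calc ((g • A + A').card : ℝ) ≤ (A + g • A).card := by
            rw [add_comm (g • A) A']
            exact_mod_cast Finset.card_le_card (Finset.add_subset_add_right
              (Finset.filter_subset _ _))
        _ ≤ K * A.card := hK g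
        _ = K * (T.card * ((T.card : ℝ)⁻¹ * A.card)) := by
            field_simp
        _ ≤ K * (T.card * A'.card) := by
            rw [hA'c]
            gcongr
        _ = _ := by ring
    obtain ⟨F, _, hF, hcF⟩ := Finset.ruzsa_covering_add hA'ne h1
    have hgA : (g • A).Nonempty := by simpa using hA
    have h2 : ∀ a ∈ g • A, ∃ t ∈ F, a - t ∈ cm W := by
      intro a ha
      obtain ⟨f, hf, d, hd, e⟩ := Finset.mem_add.1 (hcF ha)
      obtain ⟨x, hx, y, hy, e'⟩ := Finset.mem_sub.1 hd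
      refine ⟨f, hf, ?_⟩
      rw [hA', Finset.mem_filter] at hx hy
      have h3 := (cm W).sub_mem hx.2 hy.2
      have h4 : a - f = x - a0 - (y - a0) := by rw [← e, ← e']; abel
      rwa [h4]
    have hFpos : (0 : ℝ) < F.card := by
      obtain ⟨a, ha⟩ := hgA
      obtain ⟨t, ht, _⟩ := h2 a ha
      exact_mod_cast Finset.card_pos.2 ⟨t, ht⟩
    calc ent (g • A) (cm W) ≤ Real.log F.card := ent_le_of_cover hgA h2
      _ ≤ Real.log (K * T.card) := Real.log_le_log hFpos hF
      _ = _ := Real.log_mul (by positivity) hTpos.ne'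
  have hTlog : Real.log T.card ≤ 30000 * L := by
    calc Real.log T.card ≤ Real.log ((2 * K) ^ (30000 : ℝ)) := Real.log_le_log hTpos hT
      _ = 30000 * L := by rw [Real.log_rpow (by positivity)]
  -- the principle
  obtain ⟨U, hU, hinv, hUB⟩ := invariance (rho Γ G)
    (fun g U => ent (g • A) (cm U) + Module.finrank ℚ U)
    (by
      intro g U U' hU hU'
      have hgA : (g • A).Nonempty := by simpa using hA
      have h1 := ent_submod hgA (cm U) (cm U')
      have h2 : ent (g • A) (cm (U ⊔ U')) ≤ ent (g • A) (cm U ⊔ cm U') := ent_anti (cm_sup U U')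
      have h3 : Module.finrank ℚ (U ⊔ U' : Submodule ℚ (ℚ ⊗[ℤ] Γ)) +
          Module.finrank ℚ (U ⊓ U' : Submodule ℚ (ℚ ⊗[ℤ] Γ)) =
          Module.finrank ℚ U + Module.finrank ℚ U' := Submodule.finrank_sup_add_finrank_inf_eq U U'
      have h4 : (Module.finrank ℚ (U ⊔ U' : Submodule ℚ (ℚ ⊗[ℤ] Γ)) : ℝ) +
          Module.finrank ℚ (U ⊓ U' : Submodule ℚ (ℚ ⊗[ℤ] Γ)) =
          Module.finrank ℚ U + Module.finrank ℚ U' := by exact_mod_cast h3
      rw [cm_inf]
      linarith)
    (by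
      intro g U hU
      have hgA : (g • A).Nonempty := by simpa using hA
      have := ent_nonneg hgA (cm U)
      linarith)
    (by
      intro g h U
      have h1 : (h * g) • A = (g • A).image (sg h : Γ ≃ₗ[ℤ] Γ) := by
        rw [mul_smul]
        rfl
      rw [cm_map, h1, ent_image]
      congr 1
      have h2 : Module.finrank ℚ (U.map (rho Γ G h : (ℚ ⊗[ℤ] Γ) →ₗ[ℚ] (ℚ ⊗[ℤ] Γ))) =
          Module.finrank ℚ U := LinearEquiv.finrank_map_eq (rho Γ G h) U
      rw [h2])
    W hW (Real.log K + 60000 * L) (fun g => by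
      have := hgent g
      linarith) (Real.log 2) (Real.log_pos (by norm_num))
  rw [one_smul] at hUB
  have hent : ent A (cm U) ≤ 60001 * L - Module.finrank ℚ U := by linarith
  obtain ⟨a0, ha0, hlarge⟩ := exists_large hA hent
  set A' := A.filter (fun b => b - a0 ∈ cm U) with hA'
  have hA'c : (A'.card : ℝ) = nb A (cm U) a0 := by
    rw [nb, hA']
  have hA'ne : A'.Nonempty := ⟨a0, by simp [hA', ha0]⟩
  set q := Real.exp (60001 * L - Module.finrank ℚ U) with hq
  have hq0 : 0 < q := Real.exp_pos _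
  have h1 : ((A + A').card : ℝ) ≤ (K * q) * A'.card := by
    calc ((A + A').card : ℝ) ≤ (A + A).card := by
          exact_mod_cast Finset.card_le_card (Finset.add_subset_add_left
            (Finset.filter_subset _ _))
      _ ≤ K * A.card := hAA
      _ = K * (q * (q⁻¹ * A.card)) := by field_simp
      _ ≤ K * (q * A'.card) := by
          rw [hA'c, hq, ← Real.exp_neg]
          gcongr
      _ = _ := by ring
  obtain ⟨F, _, hF, hcF⟩ := Finset.ruzsa_covering_add hA'ne h1
  refine ⟨(cm U).toAddSubgroup, F, Module.finrank ℚ U, ?_, ?_, ?_, ?_, ?_⟩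
  · intro g x hx
    change io Γ (g • x) ∈ U
    rw [← rho_io, ← hinv g]
    exact ⟨io Γ x, hx, rfl⟩
  · intro n x hn hx
    have h2 : io Γ (n • x) ∈ U := hx
    rw [map_zsmul, ← Int.cast_smul_eq_zsmul ℚ] at h2
    exact (U.smul_mem_iff (by exact_mod_cast hn)).1 h2
  · exact rank_cm hU
  · calc (F.card : ℝ) * Real.exp (Module.finrank ℚ U)
        ≤ K * q * Real.exp (Module.finrank ℚ U) := by gcongr
      _ = K * Real.exp (60001 * L) := by
          rw [hq, mul_assoc, ← Real.exp_add]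
          congr 2
          ring
      _ = K * (2 * K) ^ 60001 := by
          rw [hL, mul_comm (60001 : ℝ), Real.exp_mul, Real.exp_log (by positivity)]
          congr 1
          exact_mod_cast Real.rpow_natCast (2 * K) 60001
      _ ≤ (2 * K) * (2 * K) ^ 60001 := by
          have : K ≤ 2 * K := by linarith
          gcongr
      _ = _ := (pow_succ' _ _).symm
  · intro a ha
    obtain ⟨f, hf, d, hd, e⟩ := Finset.mem_add.1 (hcF ha)
    obtain ⟨x, hx, y, hy, e'⟩ := Finset.mem_sub.1 hd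
    refine ⟨f, hf, ?_⟩
    rw [hA', Finset.mem_filter] at hx hy
    have h3 := (cm U).sub_mem hx.2 hy.2
    have h4 : a - f = x - a0 - (y - a0) := by rw [← e, ← e']; abel
    rw [h4]
    exact h3

end Pool.Agent.U128.Tf
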